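import Pool.Agent.H860V.Sy

/-!
# The recognising monoid
-/

set_option autoImplicit false
set_option linter.unusedSectionVars false

namespace Pool.Agent.H860V

open Function Pool.Agent.H860Q

variable {A Ω : Type} [DecidableEq A] [DecidableEq Ω]

/-- the transitions of the rational constraints -/
def rst (Q : Ω → Type) (D : ∀ X, DFA (A × Bool) (Q X)) (X : Ω) (S : Set (Q X))
    (c : Option A × Bool) : Set (Q X) :=
  match c.1 with
  | some a => detStep (D X) S (a, c.2)
  | none => S

theorem rst_fold (Q : Ω → Type) (D : ∀ X, DFA (A × Bool) (Q X)) (X : Ω) (S : Set (Q X))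
    (w : Wd A) : (emb w).foldl (rst Q D X) S = w.foldl (detStep (D X)) S := by
  induction w generalizing S with
  | nil => rfl
  | cons c w ih =>
    rw [emb_cons, List.foldl_cons, List.foldl_cons, ih]; rfl

/-- absence of the separator -/
def nst (_ : Unit) (b : Bool) (c : Option A × Bool) : Bool := b && c.1.isSome

theorem nst_fold (w : Wd (Option A)) (b : Bool) :
    w.foldl (nst ()) b = true ↔ b = true ∧ ∀ c ∈ w, c.1 ≠ none := by
  induction w generalizing b with
  | nil => simp
  | cons c w ih =>
    rw [List.foldl_cons, ih]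
    simp only [nst, Bool.and_eq_true, List.mem_cons, forall_eq_or_imp, Option.isSome_iff_ne_none,
      and_assoc]

/-- reduced words -/
def dst (_ : Unit) : Option (Option (A × Bool)) → Option A × Bool → Option (Option (A × Bool))
  | none, _ => none
  | some _, (none, _) => none
  | some none, (some a, e) => some (some (a, e))
  | some (some l), (some a, e) => if l.1 = a → l.2 = e then some (some (a, e)) else none

theorem dst_none (w : Wd (Option A)) : w.foldl (dst ()) none = none := by
  induction w with
  | nil => rfl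
  | cons c w ih => rw [List.foldl_cons]; exact ih

theorem dst_some (w : Wd A) (l : A × Bool) :
    (emb w).foldl (dst ()) (some (some l)) ≠ none ↔ FreeGroup.IsReduced (l :: w) := by
  induction w generalizing l with
  | nil => simp [FreeGroup.IsReduced]
  | cons c w ih =>
    rw [emb_cons, List.foldl_cons]
    unfold FreeGroup.IsReduced
    rw [List.isChain_cons_cons]
    by_cases h : l.1 = c.1 → l.2 = c.2
    · have : dst () (some (some l)) (some c.1, c.2) = some (some c) := by
        show (if l.1 = c.1 → l.2 = c.2 then some (some (c.1, c.2)) else none) = _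
        rw [if_pos h]
      rw [this, ih]
      exact ⟨fun h1 => ⟨h, h1⟩, fun h1 => h1.2⟩
    · have : dst () (some (some l)) (some c.1, c.2) = none := by
        show (if l.1 = c.1 → l.2 = c.2 then some (some (c.1, c.2)) else none) = _
        rw [if_neg h]
      rw [this, dst_none]
      simp only [ne_eq, not_true_eq_false, h, false_and]

theorem dst_fold (w : Wd A) :
    (emb w).foldl (dst ()) (some none) ≠ none ↔ FreeGroup.IsReduced w := by
  rcases w with _ | ⟨c, w⟩
  · simp [FreeGroup.IsReduced]
  · rw [emb_cons, List.foldl_cons]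
    exact dst_some w c

theorem unemb_append (u w : Wd (Option A)) : unemb (u ++ w) = unemb u ++ unemb w := by
  simp [unemb]

theorem unemb_pw (c : Wd (Option A)) (n : ℕ) : unemb (pw c n) = pw (unemb c) n := by
  induction n with
  | zero => rfl
  | succ n ih => rw [pw_succ, unemb_append, ih, pw_succ]

theorem pw_emb {c : Wd (Option A)} {w : Wd A} {n : ℕ} (hn : 1 ≤ n) (hc : c ≠ [])
    (h : pw c n <:+: emb w) : ∃ c' : Wd A, c' ≠ [] ∧ pw c' n <:+: w := by
  refine ⟨unemb c, ?_, ?_⟩
  · intro h0
    apply hc
    rw [← emb_unemb c, h0]; rfl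
    intro d hd
    obtain ⟨k, rfl⟩ := Nat.exists_eq_add_of_le' hn
    have h1 : d ∈ emb w := by
      apply h.subset
      rw [pw_succ]; exact List.mem_append_left _ hd
    simp only [emb, List.mem_map] at h1
    obtain ⟨e, -, rfl⟩ := h1
    simp
  · obtain ⟨s, t, e⟩ := h
    refine ⟨unemb s, unemb t, ?_⟩
    rw [← unemb_pw, ← unemb_append, ← unemb_append, e, unemb_emb]

theorem sv_reduced (σ : Ω → FreeGroup A) (s : (A ⊕ Ω) × Bool) :
    FreeGroup.IsReduced (sv (fun X => (σ X).toWord) s) := by
  obtain ⟨s, e⟩ := s
  rcases s with a | X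
  · exact List.IsChain.singleton _
  · cases e
    · show FreeGroup.IsReduced (FreeGroup.invRev (σ X).toWord)
      rw [← FreeGroup.toWord_inv]
      exact FreeGroup.isReduced_toWord
    · exact FreeGroup.isReduced_toWord

theorem ext_word (t : Ω → Wd A) (W : List ((A ⊕ Ω) × Bool)) :
    FreeGroup.lift (Sum.elim FreeGroup.of (fun X => FreeGroup.mk (t X))) (FreeGroup.mk W) =
      (W.map (fun s => FreeGroup.mk (sv t s))).prod := by
  rw [FreeGroup.lift_mk]
  congr 1
  apply List.map_congr_left
  rintro ⟨s, e⟩ -
  rcases s with a | X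
  · cases e
    · show (FreeGroup.of a)⁻¹ = FreeGroup.mk [(a, false)]
      rfl
    · rfl
  · cases e
    · show (FreeGroup.mk (t X))⁻¹ = FreeGroup.mk (FreeGroup.invRev (t X))
      rw [FreeGroup.inv_mk]
    · rfl

/-- from solutions to solutions of the system -/
theorem exists_u (W : List ((A ⊕ Ω) × Bool)) (σ : Ω → FreeGroup A)
    (h : FreeGroup.lift (Sum.elim FreeGroup.of σ) (FreeGroup.mk W) = 1) :
    ∃ u : La Ω W.length → Wd A, Solves (fun z => emb (u z)) (S0 W.length W) ∧
      ∀ X, u (Sum.inl X) = (σ X).toWord := by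
  have hσ : σ = fun X => FreeGroup.mk (σ X).toWord := by
    funext X; rw [FreeGroup.mk_toWord]
  rw [hσ, ext_word] at h
  obtain ⟨f, hf, hE⟩ := exists_er (sv (fun X => (σ X).toWord)) (sv_reduced σ) W [] (by
    exact List.IsChain.nil) (by
    rw [← FreeGroup.one_eq_mk, one_mul]; exact h)
  have hix : ∀ i, i ≤ W.length → (ix W.length (0 + i)).val = i := by
    intro i hi
    rw [zero_add]
    exact ((ix_eq hi _).1 rfl).symm
  refine ⟨Sum.elim (fun X => (σ X).toWord) (fun p => f p.2.val p.1), ?_, fun X => rfl⟩
  rw [solves_S0]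
  constructor
  · show f (ix W.length (0 + 0)).val 0 = []
    rw [hix 0 (Nat.zero_le _)]; exact hf
  · refine hE.congr ?_
    intro i hi k
    show f i k = f (ix W.length (0 + i)).val k
    rw [hix i hi]

/-- from solutions of the system to solutions -/
theorem sol_of_u (W : List ((A ⊕ Ω) × Bool)) (u : La Ω W.length → Wd A)
    (h : Solves (fun z => emb (u z)) (S0 W.length W)) :
    FreeGroup.lift (Sum.elim FreeGroup.of (fun X => FreeGroup.mk (u (Sum.inl X))))
      (FreeGroup.mk W) = 1 := by
  rw [solves_S0] at h
  have := h.2.prod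
  rw [h.1, ← FreeGroup.one_eq_mk, one_mul] at this
  rw [ext_word]; exact this

/-- a large power in some variable gives a power in an original variable -/
theorem exists_pow (W : List ((A ⊕ Ω) × Bool)) (u : La Ω W.length → Wd A)
    (h : Solves (fun z => emb (u z)) (S0 W.length W)) (κ : ℕ) (x : La Ω W.length)
    (c : Wd (Option A)) (hc : c ≠ [])
    (hx : pw c (1 + W.length * (κ + 2) + (κ + 2)) <:+: emb (u x)) :
    ∃ X : Ω, ∃ c : Wd A, c ≠ [] ∧ pw c κ <:+: u (Sum.inl X) := by
  obtain ⟨c', hc', hx'⟩ := pw_emb (by omega) hc hx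
  by_contra hcon
  push Not at hcon
  have hno : ∀ X, NP κ (u (Sum.inl X)) := fun X c hc => hcon X c hc
  rcases x with X | ⟨k, j⟩
  · exact (hno X).le (by omega) c' hc' hx'
  · rw [solves_S0] at h
    have h1 := h.2.np (κ := κ + 2) (by omega) (E := 1) le_rfl
      (by rw [h.1]; exact NP.nil le_rfl) (by
        rintro ⟨s, e⟩ -
        rcases s with a | X
        · intro c hc hp
          have h2 := hp.length_le
          have h3 : (pw c (κ + 2)).length = (κ + 2) * c.length := by simp [pw]
          have h4 := List.length_pos_iff.2 hc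
          have h5 : κ + 2 ≤ (κ + 2) * c.length := Nat.le_mul_of_pos_right _ h4
          have h6 : (sv (fun X => u (Sum.inl X)) ((Sum.inl a : A ⊕ Ω), e)).length = 1 := rfl
          omega
        · cases e
          · show NP (κ + 2) (iw (u (Sum.inl X)))
            exact ((hno X).le (by omega)).iw
          · exact (hno X).le (by omega)) j.val (by omega) k
    have h2 : fu u 0 j.val k = u (Sum.inr (k, j)) := by
      show u (Sum.inr (k, ix W.length (0 + j.val))) = _
      rw [zero_add, (ix_eq (by omega) j).2 rfl]
    rw [h2] at h1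
    exact h1 c' hc' hx'

end Pool.Agent.H860V
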