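import Pool.Agent.H860Q.Rat

/-!
# Word equations with involution
-/

set_option autoImplicit false
set_option linter.unusedSectionVars false

namespace Pool.Agent.H860V

open Function Pool.Agent.H860Q

variable {B Λ : Type} [DecidableEq B] [DecidableEq Λ]

abbrev Wd (B : Type) := List (B × Bool)

/-- formal inverse of a word -/
abbrev iw (w : Wd B) : Wd B := FreeGroup.invRev w

theorem iw_iw (w : Wd B) : iw (iw w) = w := FreeGroup.invRev_invRev
theorem iw_append (v w : Wd B) : iw (v ++ w) = iw w ++ iw v := FreeGroup.invRev_append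
theorem iw_length (w : Wd B) : (iw w).length = w.length := FreeGroup.invRev_length
theorem iw_nil : iw ([] : Wd B) = [] := rfl
theorem iw_eq_nil {w : Wd B} (h : iw w = []) : w = [] := by
  rw [← iw_iw w, h]; rfl
theorem iw_pw (c : Wd B) (n : ℕ) : iw (pw c n) = pw (iw c) n := by
  induction n with
  | zero => rfl
  | succ n ih => rw [pw_succ, iw_append, ih, pw_succ']

/-- symbols: constants and oriented variables -/
abbrev Sy (B Λ : Type) := (B × Bool) ⊕ (Λ × Bool)

/-- the opposite oriented variable -/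
def fl (l : Λ × Bool) : Λ × Bool := (l.1, !l.2)
@[simp] theorem fl_fl (l : Λ × Bool) : fl (fl l) = l := by simp [fl]
@[simp] theorem fl_fst (l : Λ × Bool) : (fl l).1 = l.1 := rfl
theorem fl_ne (l : Λ × Bool) : fl l ≠ l := by
  intro h
  have := congrArg Prod.snd h
  simp [fl] at this

theorem eq_or_fl {l l' : Λ × Bool} (h : l.1 = l'.1) : l = l' ∨ l = fl l' := by
  obtain ⟨a, b⟩ := l
  obtain ⟨a', b'⟩ := l'
  simp only at h
  subst h
  cases b <;> cases b' <;> simp [fl]

/-- the formal inverse of a symbol -/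
def bs : Sy B Λ → Sy B Λ
  | Sum.inl (b, e) => Sum.inl (b, !e)
  | Sum.inr l => Sum.inr (fl l)

@[simp] theorem bs_inr (l : Λ × Bool) : (bs (Sum.inr l) : Sy B Λ) = Sum.inr (fl l) := rfl
@[simp] theorem bs_inl (l : B × Bool) : (bs (Sum.inl l) : Sy B Λ) = Sum.inl (l.1, !l.2) := rfl
@[simp] theorem bs_bs (s : Sy B Λ) : bs (bs s) = s := by
  rcases s with ⟨b, e⟩ | l <;> simp

/-- value of an oriented variable -/
def vl (v : Λ → Wd B) (l : Λ × Bool) : Wd B := if l.2 then v l.1 else iw (v l.1)

theorem vl_fl (v : Λ → Wd B) (l : Λ × Bool) : vl v (fl l) = iw (vl v l) := by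
  obtain ⟨x, e⟩ := l
  cases e <;> simp [vl, fl]

/-- value of a symbol -/
def evs (v : Λ → Wd B) : Sy B Λ → Wd B
  | Sum.inl a => [a]
  | Sum.inr l => vl v l

@[simp] theorem evs_inl (v : Λ → Wd B) (a : B × Bool) : evs v (Sum.inl a) = [a] := rfl
@[simp] theorem evs_inr (v : Λ → Wd B) (l : Λ × Bool) : evs v (Sum.inr l) = vl v l := rfl

theorem evs_bs (v : Λ → Wd B) (s : Sy B Λ) : evs v (bs s) = iw (evs v s) := by
  rcases s with ⟨b, e⟩ | l
  · simp [FreeGroup.invRev]
  · simp [vl_fl]

/-- value of a word -/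
def ev (v : Λ → Wd B) (L : List (Sy B Λ)) : Wd B := L.flatMap (evs v)

@[simp] theorem ev_nil (v : Λ → Wd B) : ev v [] = [] := rfl
@[simp] theorem ev_cons (v : Λ → Wd B) (s : Sy B Λ) (L : List (Sy B Λ)) :
    ev v (s :: L) = evs v s ++ ev v L := by simp [ev]
@[simp] theorem ev_append (v : Λ → Wd B) (L R : List (Sy B Λ)) :
    ev v (L ++ R) = ev v L ++ ev v R := by simp [ev]

/-- formal inverse of a word in symbols -/
def bw (L : List (Sy B Λ)) : List (Sy B Λ) := (L.map bs).reverse

@[simp] theorem bw_nil : bw ([] : List (Sy B Λ)) = [] := rfl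
theorem bw_append (L R : List (Sy B Λ)) : bw (L ++ R) = bw R ++ bw L := by simp [bw]
theorem bw_cons (s : Sy B Λ) (R : List (Sy B Λ)) : bw (s :: R) = bw R ++ [bs s] := by simp [bw]
theorem bw_bw (L : List (Sy B Λ)) : bw (bw L) = L := by
  induction L with
  | nil => rfl
  | cons s L ih => rw [bw_cons, bw_append, ih]; simp [bw]

theorem ev_bw (v : Λ → Wd B) (L : List (Sy B Λ)) : ev v (bw L) = iw (ev v L) := by
  induction L with
  | nil => rfl
  | cons s L ih => rw [bw_cons, ev_append, ih, ev_cons, ev_cons, iw_append, evs_bs]; simp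

/-- the variable of `s` is `x` -/
def isV (x : Λ) (s : Sy B Λ) : Prop := s = Sum.inr (x, true) ∨ s = Sum.inr (x, false)

instance (x : Λ) (s : Sy B Λ) : Decidable (isV x s) := by unfold isV; infer_instance

theorem isV_inr (x : Λ) (l : Λ × Bool) : isV x (Sum.inr l : Sy B Λ) ↔ l.1 = x := by
  obtain ⟨y, e⟩ := l
  cases e <;> simp [isV]

theorem isV_iff (l : Λ × Bool) (s : Sy B Λ) :
    isV l.1 s ↔ s = Sum.inr l ∨ s = Sum.inr (fl l) := by
  obtain ⟨y, e⟩ := l
  cases e
  · simp only [isV, fl, Bool.not_false]; exact or_comm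
  · simp only [isV, fl, Bool.not_true]

theorem isV_bs (x : Λ) (s : Sy B Λ) : isV x (bs s) ↔ isV x s := by
  rcases s with ⟨b, e⟩ | l
  · simp [isV]
  · rw [bs_inr, isV_inr, isV_inr, fl_fst]

/-- replace the oriented variable `l` by `y l` (and its inverse by `l⁻¹ y⁻¹`) -/
def subL (l : Λ × Bool) (y : Sy B Λ) (L : List (Sy B Λ)) : List (Sy B Λ) :=
  L.flatMap (fun s => if s = Sum.inr l then [y, s] else if s = Sum.inr (fl l) then [s, bs y] else [s])

@[simp] theorem subL_nil (l : Λ × Bool) (y : Sy B Λ) : subL l y [] = [] := rfl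
theorem subL_self (l : Λ × Bool) (y : Sy B Λ) (L : List (Sy B Λ)) :
    subL l y (Sum.inr l :: L) = y :: Sum.inr l :: subL l y L := by simp [subL]
theorem subL_fl (l : Λ × Bool) (y : Sy B Λ) (L : List (Sy B Λ)) :
    subL l y (Sum.inr (fl l) :: L) = Sum.inr (fl l) :: bs y :: subL l y L := by
  simp [subL, fl_ne]
theorem subL_ne (l : Λ × Bool) (y s : Sy B Λ) (L : List (Sy B Λ)) (h : ¬ isV l.1 s) :
    subL l y (s :: L) = s :: subL l y L := by
  rw [isV_iff] at h
  push Not at h
  simp [subL, h.1, h.2]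
@[simp] theorem subL_append (l : Λ × Bool) (y : Sy B Λ) (L R : List (Sy B Λ)) :
    subL l y (L ++ R) = subL l y L ++ subL l y R := by simp [subL]

/-- the growth map -/
def gr (l : Λ × Bool) (y : Sy B Λ) (v : Λ → Wd B) : Λ → Wd B :=
  update v l.1 (if l.2 then evs v y ++ v l.1 else v l.1 ++ iw (evs v y))

theorem vl_gr_ne (l k : Λ × Bool) (y : Sy B Λ) (v : Λ → Wd B) (h : k.1 ≠ l.1) :
    vl (gr l y v) k = vl v k := by simp [vl, gr, h]

theorem vl_gr_self (l : Λ × Bool) (y : Sy B Λ) (v : Λ → Wd B) :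
    vl (gr l y v) l = evs v y ++ vl v l := by
  obtain ⟨x, e⟩ := l
  cases e
  · simp [vl, gr]
  · simp [vl, gr]

theorem vl_gr_fl (l : Λ × Bool) (y : Sy B Λ) (v : Λ → Wd B) :
    vl (gr l y v) (fl l) = vl v (fl l) ++ iw (evs v y) := by
  rw [vl_fl, vl_gr_self, iw_append, vl_fl]

theorem evs_gr_ne (l : Λ × Bool) (y s : Sy B Λ) (v : Λ → Wd B) (h : ¬ isV l.1 s) :
    evs (gr l y v) s = evs v s := by
  rcases s with a | k
  · rfl
  · rw [isV_inr] at h
    exact vl_gr_ne _ _ _ _ h

theorem ev_gr (l : Λ × Bool) (y : Sy B Λ) (v : Λ → Wd B) (L : List (Sy B Λ)) :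
    ev (gr l y v) L = ev v (subL l y L) := by
  induction L with
  | nil => rfl
  | cons s L ih =>
    by_cases h : isV l.1 s
    · rcases (isV_iff l s).1 h with h | h
      · subst h
        rw [subL_self, ev_cons, evs_inr, vl_gr_self, ih]; simp
      · subst h
        rw [subL_fl, ev_cons, evs_inr, vl_gr_fl, ih, ev_cons, ev_cons, evs_bs, evs_inr]; simp
    · rw [subL_ne _ _ _ _ h, ev_cons, evs_gr_ne _ _ _ _ h, ih, ev_cons]

/-- number of occurrences of a symbol -/
def occ (s : Sy B Λ) (L : List (Sy B Λ)) : ℕ := L.countP (fun t => decide (t = s))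

@[simp] theorem occ_nil (s : Sy B Λ) : occ s [] = 0 := rfl
theorem occ_cons (s t : Sy B Λ) (L : List (Sy B Λ)) :
    occ s (t :: L) = occ s L + if t = s then 1 else 0 := by
  simp [occ, List.countP_cons]
@[simp] theorem occ_append (s : Sy B Λ) (L R : List (Sy B Λ)) :
    occ s (L ++ R) = occ s L + occ s R := by simp [occ]
theorem occ_pos (s : Sy B Λ) (L : List (Sy B Λ)) : 0 < occ s L ↔ s ∈ L := by
  simp [occ, List.countP_pos_iff]
theorem occ_zero (s : Sy B Λ) (L : List (Sy B Λ)) : occ s L = 0 ↔ s ∉ L := by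
  rw [← occ_pos]; omega

/-- occurrences of an oriented variable after a substitution -/
theorem occ_subL (l k : Λ × Bool) (y : Sy B Λ) (L : List (Sy B Λ)) :
    occ (Sum.inr k) (subL l y L) = occ (Sum.inr k) L + (if y = Sum.inr k then occ (Sum.inr l) L else 0)
      + (if y = Sum.inr (fl k) then occ (Sum.inr (fl l)) L else 0) := by
  have hk : (bs y = Sum.inr k) ↔ y = Sum.inr (fl k) := by
    constructor
    · intro h; rw [← bs_bs y, h, bs_inr]
    · intro h; rw [h, bs_inr, fl_fl]
  induction L with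
  | nil => simp
  | cons s L ih =>
    by_cases h : isV l.1 s
    · rcases (isV_iff l s).1 h with h | h
      · subst h
        rw [subL_self, occ_cons, occ_cons, ih, occ_cons (Sum.inr k), occ_cons (Sum.inr l),
          occ_cons (Sum.inr (fl l))]
        have e1 : ((Sum.inr l : Sy B Λ) = Sum.inr (fl l)) = False := by
          simp [(fl_ne l).symm]
        simp only [e1, if_false, if_true]
        split_ifs <;> omega
      · subst h
        rw [subL_fl, occ_cons, occ_cons, ih, occ_cons (Sum.inr k), occ_cons (Sum.inr l),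
          occ_cons (Sum.inr (fl l))]
        have e1 : ((Sum.inr (fl l) : Sy B Λ) = Sum.inr l) = False := by
          simp [fl_ne l]
        simp only [e1, if_false, if_true, hk]
        split_ifs <;> omega
    · have h' := h
      rw [isV_iff] at h'
      push Not at h'
      rw [subL_ne _ _ _ _ h, occ_cons, ih, occ_cons (Sum.inr k), occ_cons (Sum.inr l),
        occ_cons (Sum.inr (fl l)), if_neg h'.1, if_neg h'.2]
      split_ifs <;> omega

theorem length_subL (l : Λ × Bool) (y : Sy B Λ) (L : List (Sy B Λ)) :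
    (subL l y L).length = L.length + occ (Sum.inr l) L + occ (Sum.inr (fl l)) L := by
  induction L with
  | nil => simp
  | cons s L ih =>
    by_cases h : isV l.1 s
    · rcases (isV_iff l s).1 h with h | h
      · subst h
        rw [subL_self, occ_cons, occ_cons, if_pos rfl, if_neg (by simp [(fl_ne l).symm])]
        simp only [List.length_cons, ih]; omega
      · subst h
        rw [subL_fl, occ_cons, occ_cons, if_pos rfl, if_neg (by simp [fl_ne l])]
        simp only [List.length_cons, ih]; omega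
    · have h' := h
      rw [isV_iff] at h'
      push Not at h'
      rw [subL_ne _ _ _ _ h, occ_cons, occ_cons, if_neg h'.1, if_neg h'.2]
      simp only [List.length_cons, ih]; omega

/-- systems -/
abbrev Sys (B Λ : Type) := Bool → List (Sy B Λ)

/-- occurrences of `l` on the side `b` -/
abbrev oc (S : Sys B Λ) (b : Bool) (l : Λ × Bool) : ℕ := occ (Sum.inr l) (S b)

/-- total number of occurrences of a variable -/
def cnt (S : Sys B Λ) (l : Λ × Bool) : ℕ :=
  oc S true l + oc S true (fl l) + oc S false l + oc S false (fl l)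

def len (S : Sys B Λ) : ℕ := (S true).length + (S false).length

theorem cnt_eq (S : Sys B Λ) (l : Λ × Bool) (b : Bool) :
    cnt S l = oc S b l + oc S b (fl l) + oc S (!b) l + oc S (!b) (fl l) := by
  cases b
  · simp only [cnt, Bool.not_false]; omega
  · simp only [cnt, Bool.not_true]

theorem cnt_fl (S : Sys B Λ) (l : Λ × Bool) : cnt S (fl l) = cnt S l := by
  simp only [cnt, fl_fl]; omega

theorem len_eq (S : Sys B Λ) (b : Bool) : len S = (S b).length + (S (!b)).length := by
  cases b <;> simp [len, add_comm]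

def Solves (v : Λ → Wd B) (S : Sys B Λ) : Prop := ev v (S true) = ev v (S false)

theorem solves_iff (v : Λ → Wd B) (S : Sys B Λ) (b : Bool) :
    Solves v S ↔ ev v (S b) = ev v (S (!b)) := by
  cases b
  · simp only [Solves, Bool.not_false]; exact eq_comm
  · rfl

/-- the forward step -/
def SStep (S S' : Sys B Λ) (b : Bool) (l : Λ × Bool) (y : Sy B Λ) : Prop :=
  ∃ R R', S b = Sum.inr l :: R ∧ S (!b) = y :: R' ∧ ¬ isV l.1 y ∧
    S' b = Sum.inr l :: subL l y R ∧ S' (!b) = subL l y R'

theorem SStep.solves {S S' : Sys B Λ} {b : Bool} {l : Λ × Bool} {y : Sy B Λ}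
    (h : SStep S S' b l y) (v : Λ → Wd B) : Solves (gr l y v) S ↔ Solves v S' := by
  obtain ⟨R, R', h1, h2, h3, h4, h5⟩ := h
  rw [solves_iff _ _ b, solves_iff _ _ b, h1, h2, h4, h5, ev_cons, ev_cons, ev_gr, ev_gr,
    evs_inr, vl_gr_self, evs_gr_ne _ _ _ _ h3, ev_cons, evs_inr, List.append_assoc]
  exact List.append_right_inj _

theorem not_isV {l : Λ × Bool} {y : Sy B Λ} (h : ¬ isV l.1 y) :
    y ≠ Sum.inr l ∧ y ≠ Sum.inr (fl l) := by
  rw [isV_iff] at h; push Not at h; exact h

theorem inr_ne_fl (k : Λ × Bool) : (Sum.inr k : Sy B Λ) ≠ Sum.inr (fl k) := by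
  simp [(fl_ne k).symm]

theorem SStep.cnt_le {S S' : Sys B Λ} {b : Bool} {l : Λ × Bool} {y : Sy B Λ}
    (h : SStep S S' b l y) (hq : ∀ z, cnt S z ≤ 2) : ∀ z, cnt S' z ≤ 2 := by
  obtain ⟨R, R', h1, h2, h3, h4, h5⟩ := h
  obtain ⟨n1, n2⟩ := not_isV h3
  intro z
  have hz := hq z
  have hx := hq l
  rw [cnt_eq _ _ b] at hz hx ⊢
  simp only [oc, h1, h2, h4, h5, occ_cons, occ_subL, fl_fl] at hz hx ⊢
  simp only [n1, n2, if_false, inr_ne_fl, if_true] at hx
  by_cases c1 : y = Sum.inr z
  · have c2 : y ≠ Sum.inr (fl z) := by rw [c1]; exact inr_ne_fl z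
    simp only [c1, if_true, inr_ne_fl, if_false] at hz ⊢
    omega
  · by_cases c2 : y = Sum.inr (fl z)
    · simp only [c1, c2, if_true, if_false] at hz ⊢
      have : (Sum.inr (fl z) : Sy B Λ) ≠ Sum.inr z := by rw [← c2]; exact c1
      simp only [this, if_false] at hz ⊢
      omega
    · simp only [c1, c2, if_false] at hz ⊢
      omega

theorem SStep.len_eq' {S S' : Sys B Λ} {b : Bool} {l : Λ × Bool} {y : Sy B Λ}
    {R R' : List (Sy B Λ)} (h1 : S b = Sum.inr l :: R) (h2 : S (!b) = y :: R')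
    (h4 : S' b = Sum.inr l :: subL l y R) (h5 : S' (!b) = subL l y R') :
    len S' + 1 = len S + (occ (Sum.inr l) R + occ (Sum.inr (fl l)) R +
      (occ (Sum.inr l) R' + occ (Sum.inr (fl l)) R')) := by
  rw [len_eq _ b, len_eq _ b, h1, h2, h4, h5]
  simp only [List.length_cons, length_subL]
  omega

theorem SStep.len_le {S S' : Sys B Λ} {b : Bool} {l : Λ × Bool} {y : Sy B Λ}
    (h : SStep S S' b l y) (hq : ∀ z, cnt S z ≤ 2) : len S' ≤ len S := by
  obtain ⟨R, R', h1, h2, h3, h4, h5⟩ := h
  obtain ⟨n1, n2⟩ := not_isV h3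
  have hx := hq l
  rw [cnt_eq _ _ b] at hx
  simp only [oc, h1, h2, occ_cons] at hx
  simp only [n1, n2, if_false, inr_ne_fl, if_true] at hx
  have := SStep.len_eq' h1 h2 h4 h5
  omega

/-! ### orientable and positive systems -/

/-- Every variable has at most one occurrence of each sign, the sign of `x` on the side `true` and
of `x⁻¹` on the side `false` being `+`. -/
def K1 (S : Sys B Λ) : Prop := ∀ l : Λ × Bool, ∀ b, oc S b l + oc S (!b) (fl l) ≤ 1

/-- all variables occur with positive sign -/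
def K2 (S : Sys B Λ) : Prop := ∀ b, ∀ x : Λ, oc S b (x, false) = 0

theorem SStep.K1 {S S' : Sys B Λ} {b : Bool} {l : Λ × Bool} {y : Sy B Λ}
    (h : SStep S S' b l y) (hk : K1 S) : K1 S' := by
  obtain ⟨R, R', h1, h2, h3, h4, h5⟩ := h
  obtain ⟨n1, n2⟩ := not_isV h3
  have key : ∀ z, oc S' b z + oc S' (!b) (fl z) ≤ 1 := by
    intro z
    have hz := hk z b
    have hx := hk l b
    have hx' := hk (fl l) b
    have hz' := hk (fl z) b
    simp only [oc, h1, h2, h4, h5, occ_cons, occ_subL, fl_fl] at hz hx hx' hz' ⊢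
    simp only [n1, n2, if_false, inr_ne_fl, if_true] at hx hx'
    by_cases c1 : y = Sum.inr z
    · have c3 : (Sum.inr l : Sy B Λ) ≠ Sum.inr z := by rw [← c1]; exact n1.symm
      have c4 : (Sum.inr l : Sy B Λ) ≠ Sum.inr (fl z) := by
        intro e
        apply n2
        rw [c1, ← fl_fl z, ← Sum.inr_injective e]
      simp only [c1, c3, c4, if_true, inr_ne_fl, if_false] at hz hz' ⊢
      omega
    · by_cases c2 : y = Sum.inr (fl z)
      · have c5 : (Sum.inr (fl z) : Sy B Λ) ≠ Sum.inr z := by rw [← c2]; exact c1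
        have c3 : (Sum.inr l : Sy B Λ) ≠ Sum.inr (fl z) := by rw [← c2]; exact n1.symm
        have c4 : (Sum.inr l : Sy B Λ) ≠ Sum.inr z := by
          intro e
          apply n2
          rw [c2, ← Sum.inr_injective e]
        simp only [c2, c3, c4, c5, if_true, if_false] at hz hz' ⊢
        omega
      · simp only [c1, c2, if_false] at hz hz' ⊢
        omega
  intro z b'
  have hb : b' = b ∨ b' = !b := by cases b' <;> cases b <;> simp
  rcases hb with rfl | rfl
  · exact key z
  · have := key (fl z)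
    rw [fl_fl] at this
    rw [Bool.not_not]; omega

theorem SStep.K2 {S S' : Sys B Λ} {b : Bool} {l : Λ × Bool} {y : Sy B Λ}
    (h : SStep S S' b l y) (hk : K2 S) : K2 S' := by
  obtain ⟨R, R', h1, h2, h3, h4, h5⟩ := h
  have hl : l.2 = true := by
    have := hk b l.1
    rw [oc, h1, occ_cons] at this
    by_contra hl
    have e : l = (l.1, false) := Prod.ext rfl (by simpa using hl)
    rw [if_pos (by rw [← e])] at this
    omega
  have hy : ∀ x, y ≠ Sum.inr (x, false) := by
    intro x e
    have := hk (!b) x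
    rw [oc, h2, occ_cons, if_pos e] at this
    omega
  have hfl : fl l = (l.1, false) := by simp [fl, hl]
  have key : ∀ (T : List (Sy B Λ)), (∀ x, occ (Sum.inr (x, false)) T = 0) → ∀ x,
      occ (Sum.inr (x, false)) (subL l y T) = 0 := by
    intro T hT x
    rw [occ_subL, hT x, if_neg (hy x), hfl, hT l.1]
    simp
  have hR : ∀ x, occ (Sum.inr (x, false)) R = 0 := by
    intro x
    have := hk b x
    rw [oc, h1, occ_cons] at this
    omega
  have hR' : ∀ x, occ (Sum.inr (x, false)) R' = 0 := by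
    intro x
    have := hk (!b) x
    rw [oc, h2, occ_cons] at this
    omega
  intro b' x
  have hb : b' = b ∨ b' = !b := by cases b' <;> cases b <;> simp
  rcases hb with rfl | rfl
  · rw [oc, h4, occ_cons, key R hR x]
    have : (Sum.inr l : Sy B Λ) ≠ Sum.inr (x, false) := by
      intro e
      have := congrArg Prod.snd (Sum.inr_injective e)
      rw [hl] at this
      exact Bool.noConfusion this
    rw [if_neg this]
  · rw [oc, h5, key R' hR' x]

end Pool.Agent.H860V
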