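import Pool.Agent.H860V.Fin1

/-!
# Triangulation of an equation in a free group
-/

set_option autoImplicit false
set_option linter.unusedSectionVars false

namespace Pool.Agent.H860V

open Function Pool.Agent.H860Q

variable {A ι : Type} [DecidableEq A]

/-- The triangulated equation: `f n 0 = Z n`, `f n 1 = P n`, `f n 2 = Q n`, `f n 3 = R n`. -/
def ER (val : ι → Wd A) : (ℕ → Fin 4 → Wd A) → List ι → Prop
  | f, [] => f 0 0 = [] ∧ f 0 1 = [] ∧ f 0 2 = [] ∧ f 0 3 = []
  | f, s :: W => f 0 0 = f 0 1 ++ f 0 2 ∧ f 0 1 ++ f 0 3 = f 1 0 ∧ val s = iw (f 0 2) ++ f 0 3 ∧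
      ER val (fun i => f (i + 1)) W

theorem ER.congr {val : ι → Wd A} {W : List ι} {f g : ℕ → Fin 4 → Wd A} (h : ER val f W)
    (hfg : ∀ i, i ≤ W.length → ∀ k, f i k = g i k) : ER val g W := by
  induction W generalizing f g with
  | nil =>
    have h0 := hfg 0 (Nat.zero_le _)
    obtain ⟨a, b, c, d⟩ := h
    exact ⟨by rw [← h0, a], by rw [← h0, b], by rw [← h0, c], by rw [← h0, d]⟩
  | cons s W ih =>
    have h0 := hfg 0 (Nat.zero_le _)
    have h1 := hfg 1 (by simp)
    obtain ⟨a, b, c, d⟩ := h
    refine ⟨by rw [← h0, ← h0, ← h0, a], by rw [← h0, ← h0, ← h1, b], by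
      rw [← h0, ← h0, c], ih d ?_⟩
    intro i hi k
    exact hfg (i + 1) (by simp only [List.length_cons]; omega) k

theorem cancel (w z : Wd A) (hw : FreeGroup.IsReduced w) (hz : FreeGroup.IsReduced z) :
    ∃ p q r : Wd A, z = p ++ q ∧ w = iw q ++ r ∧ FreeGroup.IsReduced (p ++ r) := by
  induction w generalizing z with
  | nil => exact ⟨z, [], [], by simp, rfl, by simpa using hz⟩
  | cons c w ih =>
    have hw' : FreeGroup.IsReduced w := List.IsChain.tail hw
    rcases List.eq_nil_or_concat z with h | ⟨z', d, h⟩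
    · subst h
      exact ⟨[], [], c :: w, rfl, rfl, by simpa using hw⟩
    · subst h
      by_cases hcd : d = (c.1, !c.2)
      · have hz' : List.IsChain (fun a b : A × Bool => a.1 = b.1 → a.2 = b.2) (z' ++ [d]) := by
          rw [← List.concat_eq_append]; exact hz
        obtain ⟨p, q, r, h1, h2, h3⟩ := ih z' hw' (List.IsChain.left_of_append hz')
        refine ⟨p, q ++ [d], r, ?_, ?_, h3⟩
        · rw [List.concat_eq_append, h1, List.append_assoc]
        · rw [iw_append, h2, hcd]
          simp [FreeGroup.invRev]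
      · refine ⟨z'.concat d, [], c :: w, by simp, rfl, ?_⟩
        unfold FreeGroup.IsReduced at hz hw ⊢
        rw [List.isChain_append]
        refine ⟨hz, hw, ?_⟩
        intro x hx y hy hxy
        simp only [List.concat_eq_append, List.getLast?_append, List.getLast?_singleton,
          Option.some_or, Option.mem_def, Option.some.injEq] at hx
        simp only [List.head?_cons, Option.mem_def, Option.some.injEq] at hy
        subst hx
        subst hy
        by_contra h4
        apply hcd
        refine Prod.ext hxy ?_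
        revert h4
        cases d.2 <;> cases c.2 <;> simp

theorem exists_er (val : ι → Wd A) (hval : ∀ s, FreeGroup.IsReduced (val s)) (W : List ι) :
    ∀ z : Wd A, FreeGroup.IsReduced z →
      FreeGroup.mk z * (W.map (fun s => FreeGroup.mk (val s))).prod = 1 →
      ∃ f : ℕ → Fin 4 → Wd A, f 0 0 = z ∧ ER val f W := by
  induction W with
  | nil =>
    intro z hz h
    have hz0 : z = [] := by
      rw [List.map_nil, List.prod_nil, mul_one] at h
      have := FreeGroup.reduce.sound (h.trans FreeGroup.one_eq_mk)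
      rw [FreeGroup.isReduced_iff_reduce_eq.1 hz] at this
      exact this
    exact ⟨fun _ _ => [], hz0.symm, rfl, rfl, rfl, rfl⟩
  | cons s W ih =>
    intro z hz h
    obtain ⟨p, q, r, h1, h2, h3⟩ := cancel (val s) z (hval s) hz
    obtain ⟨f, hf, hE⟩ := ih (p ++ r) h3 (by
      rw [List.map_cons, List.prod_cons, ← mul_assoc] at h
      rw [← h]
      congr 1
      rw [h1, h2, ← FreeGroup.mul_mk, ← FreeGroup.mul_mk, ← FreeGroup.mul_mk]
      show _ = _ * (FreeGroup.mk (FreeGroup.invRev q) * _)
      rw [← FreeGroup.inv_mk]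
      group)
    refine ⟨fun n => match n with
      | 0 => ![z, p, q, r]
      | n + 1 => f n, rfl, h1, ?_, h2, hE⟩
    exact hf.symm

theorem ER.prod {val : ι → Wd A} {W : List ι} {f : ℕ → Fin 4 → Wd A} (h : ER val f W) :
    FreeGroup.mk (f 0 0) * (W.map (fun s => FreeGroup.mk (val s))).prod = 1 := by
  induction W generalizing f with
  | nil => rw [h.1]; rfl
  | cons s W ih =>
    obtain ⟨a, b, c, d⟩ := h
    have h1 := ih d
    rw [List.map_cons, List.prod_cons, ← mul_assoc, a, c, ← h1]
    congr 1
    show _ = FreeGroup.mk (f 1 0)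
    rw [← b, ← FreeGroup.mul_mk, ← FreeGroup.mul_mk, ← FreeGroup.mul_mk]
    show _ * (FreeGroup.mk (FreeGroup.invRev _) * _) = _
    rw [← FreeGroup.inv_mk]
    group

/-- `w` contains no `n`-th power -/
def NP (n : ℕ) (w : Wd A) : Prop := ∀ c : Wd A, c ≠ [] → ¬ pw c n <:+: w

theorem NP.mono {n : ℕ} {v w : Wd A} (h : NP n w) (hv : v <:+: w) : NP n v :=
  fun c hc hp => h c hc (hp.trans hv)

theorem pw_add (c : Wd A) (m n : ℕ) : pw c (m + n) = pw c m ++ pw c n := by
  simp only [pw, List.replicate_add, List.flatten_append]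

theorem NP.le {m n : ℕ} {w : Wd A} (h : NP m w) (hmn : m ≤ n) : NP n w := by
  intro c hc hp
  obtain ⟨k, rfl⟩ := Nat.exists_eq_add_of_le hmn
  refine h c hc (List.IsInfix.trans ?_ hp)
  rw [pw_add]; exact (List.prefix_append _ _).isInfix

theorem NP.append {m n : ℕ} {u w : Wd A} (hu : NP m u) (hw : NP n w) : NP (m + n) (u ++ w) := by
  intro c hc hp
  obtain ⟨s, t, e⟩ := hp
  rw [pw_add] at e
  have e' : (s ++ pw c m) ++ (pw c n ++ t) = u ++ w := by rw [← e]; simp
  rcases List.append_eq_append_iff.1 e' with ⟨a, h1, h2⟩ | ⟨a, h1, h2⟩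
  · exact hu c hc ⟨s, a, h1.symm⟩
  · exact hw c hc ⟨a, t, by rw [h2]; simp⟩

theorem NP.iw {n : ℕ} {w : Wd A} (h : NP n w) : NP n (iw w) := by
  intro c hc hp
  have := iw_inner hp
  rw [iw_iw, iw_pw] at this
  exact h _ (fun e => hc (iw_eq_nil e)) this

theorem NP.nil {n : ℕ} (hn : 1 ≤ n) : NP n ([] : Wd A) := by
  intro c hc hp
  obtain ⟨k, rfl⟩ := Nat.exists_eq_add_of_le' hn
  rw [List.infix_nil, pw_succ] at hp
  exact hc (List.append_eq_nil_iff.1 hp).1

theorem ER.np {val : ι → Wd A} {κ : ℕ} (hκ : 1 ≤ κ) {W : List ι} {f : ℕ → Fin 4 → Wd A}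
    (h : ER val f W) {E : ℕ} (hE : 1 ≤ E) (hz : NP E (f 0 0)) (hval : ∀ s ∈ W, NP κ (val s)) :
    ∀ j, j ≤ W.length → ∀ k, NP (E + W.length * κ + κ) (f j k) := by
  induction W generalizing f E with
  | nil =>
    obtain ⟨a, b, c, d⟩ := h
    intro j hj k
    have hj0 : j = 0 := by simpa using hj
    subst hj0
    have : f 0 k = [] := by fin_cases k <;> assumption
    rw [this]
    exact NP.nil (by omega)
  | cons s W ih =>
    obtain ⟨a, b, c, d⟩ := h
    have hs := hval s List.mem_cons_self
    have hP : NP E (f 0 1) := hz.mono (by rw [a]; exact (List.prefix_append _ _).isInfix)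
    have hQ : NP κ (f 0 2) := by
      have h1 : NP κ (H860V.iw (f 0 2)) := hs.mono (by
        rw [c]; exact (List.prefix_append _ _).isInfix)
      have := h1.iw
      rwa [iw_iw] at this
    have hR : NP κ (f 0 3) := hs.mono (by rw [c]; exact (List.suffix_append _ _).isInfix)
    have hZ : NP (E + κ) (f 1 0) := by rw [← b]; exact hP.append hR
    have hlen : (s :: W).length * κ = W.length * κ + κ := by
      rw [List.length_cons]; ring
    intro j hj k
    rcases j with _ | j
    · have h1 : κ ≤ E + (s :: W).length * κ + κ := by omega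
      have h2 : E ≤ E + (s :: W).length * κ + κ := by omega
      fin_cases k
      · exact hz.le h2
      · exact hP.le h2
      · exact hQ.le h1
      · exact hR.le h1
    · have := ih (f := fun i => f (i + 1)) d (E := E + κ) (by omega) hZ
        (fun t ht => hval t (List.mem_cons_of_mem _ ht)) j
        (by simp only [List.length_cons] at hj; omega) k
      refine this.le ?_
      rw [hlen]; omega

end Pool.Agent.H860V
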