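import Pool.Agent.H860V.Core

/-!
# From infinitely many solutions to large exponents
-/

set_option autoImplicit false
set_option linter.unusedSectionVars false

namespace Pool.Agent.H860V

open Function Pool.Agent.H860Q

variable {B Λ M : Type} [DecidableEq B] [DecidableEq Λ] [Monoid M]

/-- Infinitely many solutions of one type are arbitrarily long. -/
theorem unbounded_of_infinite [Finite B] [Fintype Λ] (T : Set (Λ → Wd B)) (hT : T.Infinite)
    (K : ℕ) : ∃ v ∈ T, K ≤ ∑ z, (v z).length := by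
  by_contra hcon
  push Not at hcon
  apply hT
  refine Set.Finite.subset (Set.Finite.pi' (t := fun _ : Λ => {w : Wd B | w.length ≤ K})
    (fun _ => List.finite_length_le (B × Bool) K)) ?_
  intro v hv z
  exact (length_le_size v z).trans (hcon v hv).le

/-- If a quadratic system has infinitely many solutions of types in `Acc`, then it has such
solutions of arbitrarily large exponent. -/
theorem pump_of_infinite [Finite B] [Fintype Λ] [Finite M] (φ : IMor B M) (S0 : Sys B Λ)
    (hq : ∀ z, cnt S0 z ≤ 2) (hty : K1 S0 ∨ K2 S0) (Acc : Set (Λ → M))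
    (h : {v : Λ → Wd B | Solves v S0 ∧ (fun z => φ.f (v z)) ∈ Acc}.Infinite) (κ : ℕ) :
    ∃ v : Λ → Wd B, Solves v S0 ∧ (fun z => φ.f (v z)) ∈ Acc ∧
      ∃ x, ∃ c, c ≠ [] ∧ pw c κ <:+: v x := by
  have h1 : ∃ m0 ∈ Acc, {v : Λ → Wd B | Solves v S0 ∧ (fun z => φ.f (v z)) = m0}.Infinite := by
    by_contra hcon
    push Not at hcon
    apply h
    have : {v : Λ → Wd B | Solves v S0 ∧ (fun z => φ.f (v z)) ∈ Acc} =
        ⋃ m0 ∈ Acc, {v : Λ → Wd B | Solves v S0 ∧ (fun z => φ.f (v z)) = m0} := by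
      ext v
      simp only [Set.mem_iUnion]
      constructor
      · rintro ⟨a, b⟩; exact ⟨_, b, a, rfl⟩
      · rintro ⟨m0, b, a, rfl⟩; exact ⟨a, b⟩
    rw [this]
    exact Set.Finite.biUnion (Set.toFinite _) (fun m hm => hcon m hm)
  obtain ⟨m0, hm0, hinf⟩ := h1
  obtain ⟨v, e1, e2, x, -, c, hc, hx⟩ := core φ S0 hq hty m0 (fun K => by
    obtain ⟨v, hv, hK⟩ := unbounded_of_infinite _ hinf K
    exact ⟨v, hv.1, fun z => congrFun hv.2 z, hK⟩) κ
  exact ⟨v, e1, by rw [show (fun z => φ.f (v z)) = m0 from funext e2]; exact hm0, x, c, hc, hx⟩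

/-- product of morphisms -/
def Mor.prod {C M' : Type} [Monoid M'] (φ : Mor C M) (ψ : Mor C M') : Mor C (M × M') where
  f w := (φ.f w, ψ.f w)
  one := by rw [φ.one, ψ.one]; rfl
  mul x y := by rw [φ.mul, ψ.mul]; rfl

/-- the involutive closure of a morphism -/
def imor (φ : Mor (B × Bool) M) : IMor B (M × Mᵐᵒᵖ) where
  f w := (φ.f w, MulOpposite.op (φ.f (iw w)))
  one := by rw [φ.one, iw_nil, φ.one]; rfl
  mul x y := by rw [φ.mul, iw_append, φ.mul, MulOpposite.op_mul]; rfl
  tau m := (m.2.unop, MulOpposite.op m.1)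
  tau_mul a b := by
    obtain ⟨a1, a2⟩ := a
    obtain ⟨b1, b2⟩ := b
    simp
  f_iw w := by
    show (φ.f (iw w), MulOpposite.op (φ.f (iw (iw w)))) = _
    rw [iw_iw]; rfl

end Pool.Agent.H860V
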