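import Pool.Agent.H860V.Basic

/-!
# Growth sequences with involution
-/

set_option autoImplicit false
set_option linter.unusedSectionVars false

namespace Pool.Agent.H860V

open Function Pool.Agent.H860Q

variable {B Λ M : Type} [DecidableEq B] [DecidableEq Λ] [Monoid M]

/-- a morphism to a monoid with an anti-automorphism -/
structure IMor (B M : Type) [Monoid M] extends Mor (B × Bool) M where
  tau : M → M
  tau_mul : ∀ a b, tau (a * b) = tau b * tau a
  f_iw : ∀ w, f (iw w) = tau (f w)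

theorem LJ_tau (φ : IMor B M) {a b : M} (h : LJ a b) : LJ (φ.tau a) (φ.tau b) := by
  obtain ⟨s, t, rfl⟩ := h
  exact ⟨φ.tau t, φ.tau s, by rw [φ.tau_mul, φ.tau_mul, mul_assoc]⟩

theorem inner_gr (l : Λ × Bool) (k : Λ × Bool) (y : Sy B Λ) (v : Λ → Wd B) :
    vl v k <:+: vl (gr l y v) k := by
  by_cases h : k.1 = l.1
  · rcases eq_or_fl h with h | h
    · subst h; rw [vl_gr_self]; exact (List.suffix_append _ _).isInfix
    · subst h; rw [vl_gr_fl]; exact (List.prefix_append _ _).isInfix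
  · rw [vl_gr_ne _ _ _ _ h]

theorem iw_inner {v w : Wd B} (h : v <:+: w) : iw v <:+: iw w := by
  obtain ⟨s, t, rfl⟩ := h
  exact ⟨iw t, iw s, by rw [iw_append, iw_append, List.append_assoc]⟩

theorem vl_inner_iff {v w : Λ → Wd B} {x : Λ} (h : v x <:+: w x) (e : Bool) :
    vl v (x, e) <:+: vl w (x, e) := by
  cases e
  · exact iw_inner h
  · exact h

theorem vl_length (v : Λ → Wd B) (l : Λ × Bool) : (vl v l).length = (v l.1).length := by
  obtain ⟨x, e⟩ := l
  cases e
  · exact iw_length _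
  · rfl

theorem vl_phi (φ : IMor B M) {v w : Λ → Wd B} (h : ∀ z, φ.f (v z) = φ.f (w z)) (l : Λ × Bool) :
    φ.f (vl v l) = φ.f (vl w l) := by
  obtain ⟨x, e⟩ := l
  cases e
  · show φ.f (iw (v x)) = φ.f (iw (w x)); rw [φ.f_iw, φ.f_iw, h]
  · exact h x

theorem evs_phi (φ : IMor B M) {v w : Λ → Wd B} (h : ∀ z, φ.f (v z) = φ.f (w z)) (s : Sy B Λ) :
    φ.f (evs v s) = φ.f (evs w s) := by
  rcases s with a | l
  · rfl
  · exact vl_phi φ h l

theorem ev_phi (φ : IMor B M) {v w : Λ → Wd B} (h : ∀ z, φ.f (v z) = φ.f (w z))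
    (L : List (Sy B Λ)) : φ.f (ev v L) = φ.f (ev w L) := by
  induction L with
  | nil => rfl
  | cons s L ih => rw [ev_cons, ev_cons, φ.mul, φ.mul, ih, evs_phi φ h]

theorem gr_phi (φ : IMor B M) (l : Λ × Bool) (y : Sy B Λ) {v w : Λ → Wd B}
    (h : ∀ z, φ.f (v z) = φ.f (w z)) (z : Λ) : φ.f (gr l y v z) = φ.f (gr l y w z) := by
  obtain ⟨x, e⟩ := l
  by_cases hz : z = x
  · subst hz
    cases e
    · simp only [gr, update_self]
      show φ.f (v z ++ iw (evs v y)) = φ.f (w z ++ iw (evs w y))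
      rw [φ.mul, φ.mul, φ.f_iw, φ.f_iw, h, evs_phi φ h]
    · simp only [gr, update_self]
      show φ.f (evs v y ++ v z) = φ.f (evs w y ++ w z)
      rw [φ.mul, φ.mul, h, evs_phi φ h]
  · simp [gr, hz, h]

/-- A word of large exponent occurs in the value of a variable of `D`. -/
def PumpAt (φ : IMor B M) (S : Sys B Λ) (m : Λ → M) (D : Set Λ) : Prop :=
  ∀ κ : ℕ, ∃ v : Λ → Wd B, Solves v S ∧ (∀ z, φ.f (v z) = m z) ∧
    ∃ x ∈ D, ∃ c, c ≠ [] ∧ pw c κ <:+: v x

/-- the combinatorial data of a periodic growth sequence -/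
structure Gr (φ : IMor B M) (Λ : Type) [DecidableEq Λ] where
  S : ℕ → Sys B Λ
  X : ℕ → Λ × Bool
  Y : ℕ → Sy B Λ
  B' : ℕ → Bool
  V : ℕ → Λ → Wd B
  p : ℕ
  hp : 0 < p
  step : ∀ n, SStep (S (n + 1)) (S n) (B' n) (X n) (Y n)
  hV : ∀ n, V (n + 1) = gr (X n) (Y n) (V n)
  perS : ∀ n, S (n + p) = S n
  perX : ∀ n, X (n + p) = X n
  perY : ∀ n, Y (n + p) = Y n
  perV : ∀ n z, φ.f (V (n + p) z) = φ.f (V n z)
  sol : Solves (V 0) (S 0)
  hlen : ∀ n, len (S (n + 1)) = len (S n)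
  hY : ∀ n, evs (V n) (Y n) ≠ []

namespace Gr

variable {φ : IMor B M} (G : Gr φ Λ)

/-- value of the oriented variable at level `n` -/
abbrev W (n : ℕ) (l : Λ × Bool) : Wd B := vl (G.V n) l

theorem solves (n : ℕ) : Solves (G.V n) (G.S n) := by
  induction n with
  | zero => exact G.sol
  | succ n ih => rw [G.hV]; exact ((G.step n).solves _).2 ih

theorem inner_succ (n : ℕ) (l : Λ × Bool) : G.W n l <:+: G.W (n + 1) l := by
  unfold W; rw [G.hV]; exact inner_gr _ _ _ _

theorem inner {n m : ℕ} (h : n ≤ m) (l : Λ × Bool) : G.W n l <:+: G.W m l := by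
  induction h with
  | refl => exact List.infix_rfl
  | step _ ih => exact ih.trans (G.inner_succ _ l)

theorem perX' (n k : ℕ) : G.X (n + k * G.p) = G.X n := by
  induction k with
  | zero => simp
  | succ k ih => rw [Nat.succ_mul, ← add_assoc, G.perX, ih]
theorem perS' (n k : ℕ) : G.S (n + k * G.p) = G.S n := by
  induction k with
  | zero => simp
  | succ k ih => rw [Nat.succ_mul, ← add_assoc, G.perS, ih]
theorem perV' (n k : ℕ) (z : Λ) : φ.f (G.V (n + k * G.p) z) = φ.f (G.V n z) := by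
  induction k with
  | zero => simp
  | succ k ih => rw [Nat.succ_mul, ← add_assoc, G.perV, ih]
theorem perW' (n k : ℕ) (l : Λ × Bool) : φ.f (G.W (n + k * G.p) l) = φ.f (G.W n l) :=
  vl_phi φ (G.perV' n k) l

theorem le_mul (m n : ℕ) : m ≤ n + m * G.p := by
  have := Nat.le_mul_of_pos_right m G.hp
  omega

theorem LJ_inner {v w : Wd B} (h : v <:+: w) : LJ (φ.f w) (φ.f v) := by
  obtain ⟨s, t, rfl⟩ := h
  exact ⟨φ.f s, φ.f t, by rw [φ.mul, φ.mul]⟩

theorem lj_level (n m : ℕ) (l : Λ × Bool) : LJ (φ.f (G.W n l)) (φ.f (G.W m l)) := by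
  rw [← G.perW' n m l]
  exact LJ_inner (G.inner (G.le_mul m n) l)

theorem chg (n : ℕ) (h : G.X (n + 1) ≠ G.X n) :
    G.B' (n + 1) = (!G.B' n) ∧ G.Y n = Sum.inr (G.X (n + 1)) ∧ (G.X (n + 1)).1 ≠ (G.X n).1 := by
  obtain ⟨R, R', h1, h2, h3, -, -⟩ := G.step n
  obtain ⟨T, T', -, -, -, h4, h5⟩ := G.step (n + 1)
  have hb : G.B' (n + 1) = (!G.B' n) := by
    by_contra hb
    have hb' : G.B' (n + 1) = G.B' n := by
      revert hb; cases G.B' (n + 1) <;> cases G.B' n <;> simp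
    rw [hb', h1] at h4
    exact h (Sum.inr_injective (List.cons.inj h4).1).symm
  have hy : G.Y n = Sum.inr (G.X (n + 1)) := by
    rw [hb, h2] at h4
    exact (List.cons.inj h4).1
  refine ⟨hb, hy, ?_⟩
  rw [hy, isV_inr] at h3
  exact h3

theorem chg_W (n : ℕ) (h : G.X (n + 1) ≠ G.X n) :
    G.W (n + 1) (G.X n) = G.W n (G.X (n + 1)) ++ G.W n (G.X n) := by
  unfold W
  rw [G.hV, vl_gr_self, (G.chg n h).2.1, evs_inr]

theorem lj_succ (n a b : ℕ) : LJ (φ.f (G.W a (G.X n))) (φ.f (G.W b (G.X (n + 1)))) := by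
  by_cases h : G.X (n + 1) = G.X n
  · rw [h]; exact G.lj_level _ _ _
  · refine (G.lj_level a (n + 1) _).trans (LJ.trans ?_ (G.lj_level n b _))
    rw [G.chg_W n h, φ.mul]
    exact LJ.mul_right _ _

theorem lj_add (n k a b : ℕ) : LJ (φ.f (G.W a (G.X n))) (φ.f (G.W b (G.X (n + k)))) := by
  induction k generalizing b with
  | zero => exact G.lj_level _ _ _
  | succ k ih => exact (ih 0).trans (G.lj_succ _ _ _)

theorem lj_all (i j a b : ℕ) : LJ (φ.f (G.W a (G.X i))) (φ.f (G.W b (G.X j))) := by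
  rw [← G.perX' j i]
  have h : i ≤ j + i * G.p := G.le_mul i j
  obtain ⟨k, hk⟩ := Nat.exists_eq_add_of_le h
  rw [hk]
  exact G.lj_add _ _ _ _

/-- the reference element -/
def e : M := φ.f (G.W 0 (G.X 0))

theorem e_le (n j : ℕ) : LJ G.e (φ.f (G.W n (G.X j))) := G.lj_all _ _ _ _
theorem le_e (n j : ℕ) : LJ (φ.f (G.W n (G.X j))) G.e := G.lj_all _ _ _ _

theorem long (i H : ℕ) : ∃ N, ∀ n, N ≤ n → H ≤ (G.W n (G.X i)).length := by
  have : ∃ N, H ≤ (G.W N (G.X i)).length := by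
    induction H with
    | zero => exact ⟨0, Nat.zero_le _⟩
    | succ H ih =>
      obtain ⟨N, hN⟩ := ih
      refine ⟨i + N * G.p + 1, ?_⟩
      have h1 := G.perX' i N
      unfold W
      rw [G.hV, h1, vl_gr_self, List.length_append]
      have h2 := (G.inner (G.le_mul N i) (G.X i)).length_le
      have h3 := List.length_pos_iff.2 (G.hY (i + N * G.p))
      unfold W at h2 hN
      omega
  obtain ⟨N, hN⟩ := this
  exact ⟨N, fun n hn => hN.trans (G.inner hn _).length_le⟩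

theorem multi_large (hm : ∃ n, G.X (n + 1) ≠ G.X n) (N : ℕ) : ∃ n, N ≤ n ∧ G.X (n + 1) ≠ G.X n := by
  obtain ⟨n, hn⟩ := hm
  refine ⟨n + N * G.p, G.le_mul N n, ?_⟩
  rw [G.perX', show n + N * G.p + 1 = n + 1 + N * G.p by ring, G.perX']
  exact hn

theorem lose_large (hm : ∃ n, G.X (n + 1) ≠ G.X n) (i N : ℕ) :
    ∃ n, N ≤ n ∧ G.X n = G.X i ∧ G.X (n + 1) ≠ G.X n := by
  classical
  have hex : ∃ k, G.X (i + N * G.p + k + 1) ≠ G.X i := by
    by_contra hcon
    push Not at hcon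
    obtain ⟨n, hn, hne⟩ := G.multi_large hm (i + N * G.p + 1)
    apply hne
    obtain ⟨k, rfl⟩ := Nat.exists_eq_add_of_le hn
    have h1 := hcon k
    have h2 := hcon (k + 1)
    rw [show i + N * G.p + 1 + k + 1 = i + N * G.p + (k + 1) + 1 by ring, h2,
      show i + N * G.p + 1 + k = i + N * G.p + k + 1 by ring, h1]
  have h1 := Nat.find_spec hex
  have h2 : G.X (i + N * G.p + Nat.find hex) = G.X i := by
    rcases hk : Nat.find hex with _ | k
    · exact G.perX' i N
    · have := Nat.find_min hex (m := k) (by omega)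
      push Not at this
      exact this
  refine ⟨i + N * G.p + Nat.find hex, ?_, h2, ?_⟩
  · have := G.le_mul N i; omega
  · rw [h2]; exact h1

theorem deep (hm : ∃ n, G.X (n + 1) ≠ G.X n) (i H : ℕ) : ∃ N, ∀ n, N ≤ n →
    ∃ z1 z2, G.W n (G.X i) = z1 ++ z2 ∧ H ≤ z1.length ∧ H ≤ z2.length ∧
      LJ (φ.f z1) G.e ∧ LJ (φ.f z2) G.e := by
  obtain ⟨N1, hN1⟩ := G.long i H
  -- a uniform bound for all winners
  have hall : ∃ N2, ∀ j, ∀ n, N2 ≤ n → H ≤ (G.W n (G.X j)).length := by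
    choose N hN using fun j => G.long j H
    refine ⟨∑ j ∈ Finset.range G.p, N j, fun j n hn => ?_⟩
    have hj : G.X j = G.X (j % G.p) := by
      conv_lhs => rw [← Nat.mod_add_div j G.p, mul_comm]
      exact G.perX' _ _
    rw [hj]
    refine hN (j % G.p) n (le_trans ?_ hn)
    exact Finset.single_le_sum (f := N) (fun _ _ => Nat.zero_le _)
      (Finset.mem_range.2 (Nat.mod_lt _ G.hp))
  obtain ⟨N2, hN2⟩ := hall
  obtain ⟨k, hk, hk1, hk2⟩ := G.lose_large hm i (N1 + N2)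
  refine ⟨k + 1, fun n hn => ?_⟩
  obtain ⟨u, w, hu⟩ := G.inner hn (G.X i)
  have h1 := G.chg_W k hk2
  rw [hk1] at h1
  refine ⟨u ++ G.W k (G.X (k + 1)), G.W k (G.X i) ++ w, ?_, ?_, ?_, ?_, ?_⟩
  · rw [← hu, h1]; simp only [List.append_assoc]
  · have := hN2 (k + 1) k (by omega)
    rw [List.length_append]; omega
  · have := hN1 k (by omega)
    rw [List.length_append]; omega
  · rw [φ.mul]
    exact (LJ.mul_left _ _).trans (G.le_e _ _)
  · rw [φ.mul]
    exact (LJ.mul_right _ _).trans (G.le_e _ _)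

/-- the common value of the two words at level `n` -/
def base (n : ℕ) : Wd B := ev (G.V n) (G.S n true)

theorem base_eq (n : ℕ) (b : Bool) : ev (G.V n) (G.S n b) = G.base n := by
  cases b
  · exact (G.solves n).symm
  · rfl

theorem base_succ (n : ℕ) : G.base (n + 1) = evs (G.V n) (G.Y n) ++ G.base n := by
  obtain ⟨R, R', h1, h2, h3, h4, h5⟩ := G.step n
  rw [← G.base_eq (n + 1) (!G.B' n), h2, ev_cons, G.hV, evs_gr_ne _ _ _ _ h3, ev_gr, ← h5,
    G.base_eq]

theorem base_head (n : ℕ) : ∃ T, G.base n = G.W n (G.X n) ++ T := by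
  obtain ⟨R, R', h1, h2, h3, h4, h5⟩ := G.step n
  exact ⟨ev (G.V n) (subL (G.X n) (G.Y n) R), by
    rw [← G.base_eq n (G.B' n), h4, ev_cons, evs_inr]⟩

theorem good_start [Finite M] (n : ℕ) : ∃ Z E, G.base n = Z ++ E ∧
    E.length ≤ (G.base 0).length ∧ LJ G.e (φ.f Z) := by
  induction n with
  | zero => exact ⟨[], G.base 0, by simp, le_refl _, ⟨G.e, 1, by simp [φ.one]⟩⟩
  | succ n ih =>
    obtain ⟨Z, E, h1, h2, h3⟩ := ih
    obtain ⟨T, hT⟩ := G.base_head n
    have hgood : LJ G.e (φ.f (evs (G.V n) (G.Y n)) * φ.f (G.W n (G.X n))) := by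
      rw [← φ.mul]
      have := G.e_le (n + 1) n
      unfold W at this ⊢
      rwa [G.hV, vl_gr_self] at this
    rcases le_or_gt (G.W n (G.X n)).length Z.length with h | h
    · have hpre : G.W n (G.X n) <+: Z := by
        refine List.prefix_of_prefix_length_le (l₃ := G.base n) ?_ ?_ h
        · rw [hT]; exact List.prefix_append _ _
        · rw [h1]; exact List.prefix_append _ _
      obtain ⟨ρ, hρ⟩ := hpre
      refine ⟨evs (G.V n) (G.Y n) ++ Z, E, ?_, h2, ?_⟩
      · rw [G.base_succ, h1, List.append_assoc]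
      · rw [← hρ, φ.mul, φ.mul, ← mul_assoc]
        refine glue hgood ?_ (G.le_e _ _)
        rw [← φ.mul, hρ]; exact h3
    · refine ⟨evs (G.V n) (G.Y n) ++ G.W n (G.X n), T, ?_, ?_, ?_⟩
      · rw [G.base_succ, hT, List.append_assoc]
      · have h4 := congrArg List.length hT
        rw [h1] at h4
        simp only [List.length_append] at h4
        omega
      · rw [φ.mul]; exact hgood

/-- the general form of the gluing at an occurrence -/
theorem glue_occ [Finite M] (n : ℕ) (w z1 z2 : Wd B) (hw : w = z1 ++ z2)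
    (hz2 : (G.base 0).length ≤ z2.length) (hz1 : LJ (φ.f z1) G.e) (hwe : LJ G.e (φ.f w))
    (L R : Wd B) (hb : G.base n = L ++ w ++ R) : LJ G.e (φ.f (L ++ w)) := by
  obtain ⟨Z, E, h1, h2, h3⟩ := G.good_start n
  rcases le_or_gt (L ++ w).length Z.length with h | h
  · have hpre : L ++ w <+: Z := by
      refine List.prefix_of_prefix_length_le (l₃ := G.base n) ?_ ?_ h
      · rw [hb]; exact List.prefix_append _ _
      · rw [h1]; exact List.prefix_append _ _
    obtain ⟨ρ, hρ⟩ := hpre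
    rw [← hρ, φ.mul] at h3
    exact h3.trans (LJ.mul_right _ _)
  · have hpre : Z <+: L ++ w := by
      refine List.prefix_of_prefix_length_le (l₃ := G.base n) ?_ ?_ h.le
      · rw [h1]; exact List.prefix_append _ _
      · rw [hb]; exact List.prefix_append _ _
    obtain ⟨ρ, hρ⟩ := hpre
    have hρl : ρ.length ≤ z2.length := by
      have h4 : ρ.length ≤ E.length := by
        have h5 : (L ++ w).length ≤ (Z ++ E).length := by
          rw [← h1, hb]; simp
        rw [← hρ] at h5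
        simp only [List.length_append] at h5
        omega
      omega
    have hsuf : ρ <:+ z2 := by
      refine List.suffix_of_suffix_length_le (l₃ := L ++ w) ?_ ?_ hρl
      · rw [← hρ]; exact List.suffix_append _ _
      · rw [hw, ← List.append_assoc]; exact List.suffix_append _ _
    obtain ⟨z3, hz3⟩ := hsuf
    have hZ : Z = L ++ (z1 ++ z3) := by
      have : Z ++ ρ = L ++ (z1 ++ z3) ++ ρ := by
        rw [hρ, hw, ← hz3]; simp
      exact List.append_cancel_right this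
    rw [← hρ, hZ, φ.mul, φ.mul L]
    refine glue ?_ ?_ ?_
    · rw [← φ.mul, ← hZ]; exact h3
    · rw [← φ.mul, List.append_assoc, hz3, ← hw]; exact hwe
    · rw [φ.mul]; exact (LJ.mul_right _ _).trans hz1

theorem occ_good [Finite M] (hm : ∃ n, G.X (n + 1) ≠ G.X n) (i : ℕ) : ∃ N, ∀ n, N ≤ n →
    ∀ L R, G.base n = L ++ G.W n (G.X i) ++ R → LJ G.e (φ.f (L ++ G.W n (G.X i))) := by
  obtain ⟨N, hN⟩ := G.deep hm i (G.base 0).length
  refine ⟨N, fun n hn L R hb => ?_⟩
  obtain ⟨z1, z2, hz, -, hz2, hz1, -⟩ := hN n hn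
  exact G.glue_occ n _ z1 z2 hz hz2 hz1 (G.e_le _ _) L R hb

/-- the same for the opposite orientation, if both orientations have the same J-class -/
theorem occ_good_fl [Finite M] (hm : ∃ n, G.X (n + 1) ≠ G.X n) (i : ℕ)
    (he : LJ G.e (φ.tau G.e)) (he' : LJ (φ.tau G.e) G.e) : ∃ N, ∀ n, N ≤ n →
    ∀ L R, G.base n = L ++ G.W n (fl (G.X i)) ++ R → LJ G.e (φ.f (L ++ G.W n (fl (G.X i)))) := by
  obtain ⟨N, hN⟩ := G.deep hm i (G.base 0).length
  refine ⟨N, fun n hn L R hb => ?_⟩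
  obtain ⟨z1, z2, hz, hz1, -, -, hz2⟩ := hN n hn
  refine G.glue_occ n _ (iw z2) (iw z1) ?_ ?_ ?_ ?_ L R hb
  · rw [W, vl_fl, ← iw_append, ← hz]
  · rw [iw_length]; exact hz1
  · rw [φ.f_iw]; exact (LJ_tau φ hz2).trans he'
  · rw [W, vl_fl, φ.f_iw]; exact he.trans (LJ_tau φ (G.e_le _ _))

end Gr

end Pool.Agent.H860V
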