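import Pool.Agent.H860V.Pump

/-!
# Descending paths of systems with involution
-/

set_option autoImplicit false
set_option linter.unusedSectionVars false

namespace Pool.Agent.H860V

open Function Pool.Agent.H860Q

variable {B Λ M : Type} [DecidableEq B] [DecidableEq Λ] [Monoid M]

/-- A state: a system, a valuation, and the set of letters that are alive. -/
structure St (B Λ : Type) where
  S : Sys B Λ
  v : Λ → Wd B
  D : Set Λ

/-- remove a variable -/
def era (x : Λ) (L : List (Sy B Λ)) : List (Sy B Λ) := L.filter (fun s => decide (¬ isV x s))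

theorem ev_era (v : Λ → Wd B) (x : Λ) (L : List (Sy B Λ)) :
    ev (update v x []) L = ev v (era x L) := by
  induction L with
  | nil => rfl
  | cons s L ih =>
    by_cases h : isV x s
    · have : era x (s :: L) = era x L := by simp [era, h]
      rw [this, ev_cons, ih]
      rcases h with h | h
      · subst h; simp [vl]
      · subst h; simp [vl]
    · have : era x (s :: L) = s :: era x L := by simp [era, h]
      rw [this, ev_cons, ev_cons, ih]
      congr 1
      rcases s with a | k
      · rfl
      · rw [isV_inr] at h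
        simp [vl, h]

theorem occ_era_le (x : Λ) (s : Sy B Λ) (L : List (Sy B Λ)) : occ s (era x L) ≤ occ s L :=
  List.Sublist.countP_le List.filter_sublist

theorem length_era_le (x : Λ) (L : List (Sy B Λ)) : (era x L).length ≤ L.length :=
  List.length_filter_le _ _

theorem length_era_lt (l : Λ × Bool) (R : List (Sy B Λ)) :
    (era l.1 (Sum.inr l :: R)).length < (Sum.inr l :: R : List (Sy B Λ)).length := by
  have h : isV l.1 (Sum.inr l : Sy B Λ) := (isV_inr _ _).2 rfl
  have : era l.1 (Sum.inr l :: R : List (Sy B Λ)) = era l.1 R := by simp [era, h]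
  rw [this, List.length_cons]
  exact Nat.lt_succ_of_le (length_era_le _ _)

/-- the forward steps -/
inductive Fw : St B Λ → St B Λ → Prop
  | drop (S S' : Sys B Λ) (v : Λ → Wd B) (D : Set Λ) (s : Sy B Λ)
      (h1 : S true = s :: S' true) (h2 : S false = s :: S' false) : Fw ⟨S, v, D⟩ ⟨S', v, D⟩
  | erase (S : Sys B Λ) (v : Λ → Wd B) (D : Set Λ) (l : Λ × Bool) (b : Bool) (R : List (Sy B Λ))
      (h : S b = Sum.inr l :: R) (hv : v l.1 = []) :
      Fw ⟨S, v, D⟩ ⟨fun b => era l.1 (S b), v, D \ {l.1}⟩
  | sub (S S' : Sys B Λ) (v : Λ → Wd B) (D : Set Λ) (b : Bool) (l : Λ × Bool) (y : Sy B Λ)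
      (r : Wd B) (h : SStep S S' b l y) (hy : evs v y ≠ []) (hv : vl v l = evs v y ++ r) :
      Fw ⟨S, v, D⟩ ⟨S', upd v l r, D⟩

/-- validity of a state -/
structure Valid (s : St B Λ) : Prop where
  sol : Solves s.v s.S
  q : ∀ z, cnt s.S z ≤ 2
  ty : K1 s.S ∨ K2 s.S
  al : ∀ b (l : Λ × Bool), Sum.inr l ∈ s.S b → l.1 ∈ s.D
  dead : ∀ z, z ∉ s.D → s.v z = []

theorem vl_upd_ne (v : Λ → Wd B) (l k : Λ × Bool) (r : Wd B) (h : k.1 ≠ l.1) :
    vl (upd v l r) k = vl v k := by simp [vl, upd, h]

theorem evs_upd_ne (v : Λ → Wd B) (l : Λ × Bool) (s : Sy B Λ) (r : Wd B) (h : ¬ isV l.1 s) :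
    evs (upd v l r) s = evs v s := by
  rcases s with a | k
  · rfl
  · rw [isV_inr] at h
    exact vl_upd_ne _ _ _ _ h

theorem gr_upd (v : Λ → Wd B) (l : Λ × Bool) (y : Sy B Λ) (r : Wd B) (hy : ¬ isV l.1 y)
    (hv : vl v l = evs v y ++ r) : gr l y (upd v l r) = v := by
  funext z
  by_cases hz : z = l.1
  · subst hz
    have h1 := evs_upd_ne v l y r hy
    simp only [gr, update_self, h1]
    obtain ⟨x, e⟩ := l
    cases e
    · have h2 : iw (v x) = evs v y ++ r := hv
      simp only [upd, update_self]
      show iw r ++ iw (evs v y) = v x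
      rw [← iw_append, ← h2, iw_iw]
    · have h2 : v x = evs v y ++ r := hv
      simp only [upd, update_self]
      show evs v y ++ r = v x
      rw [h2]
  · simp [gr, upd, hz]

theorem mem_subL {l k : Λ × Bool} {y : Sy B Λ} {L : List (Sy B Λ)}
    (h : Sum.inr k ∈ subL l y L) :
    y = Sum.inr k ∨ y = Sum.inr (fl k) ∨ Sum.inr k ∈ L := by
  rw [← occ_pos, occ_subL] at h
  by_contra hcon
  push Not at hcon
  obtain ⟨h1, h2, h3⟩ := hcon
  rw [if_neg h1, if_neg h2, (occ_zero _ _).2 h3] at h
  omega

theorem K1.of_le {S S' : Sys B Λ} (h : K1 S) (hle : ∀ b l, oc S' b l ≤ oc S b l) : K1 S' :=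
  fun l b => (Nat.add_le_add (hle b l) (hle (!b) (fl l))).trans (h l b)

theorem K2.of_le {S S' : Sys B Λ} (h : K2 S) (hle : ∀ b l, oc S' b l ≤ oc S b l) : K2 S' :=
  fun b x => Nat.le_zero.1 ((hle b _).trans (h b x).le)

theorem cnt_of_le {S S' : Sys B Λ} (h : ∀ z, cnt S z ≤ 2) (hle : ∀ b l, oc S' b l ≤ oc S b l) :
    ∀ z, cnt S' z ≤ 2 := by
  intro z
  have := h z
  unfold cnt at this ⊢
  have h1 := hle true z
  have h2 := hle true (fl z)
  have h3 := hle false z
  have h4 := hle false (fl z)
  omega

theorem Fw.valid {s s' : St B Λ} (h : Fw s s') (hs : Valid s) : Valid s' := by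
  cases h with
  | drop S S' v D s h1 h2 =>
    obtain ⟨a, b, ty, c, d⟩ := hs
    have hle : ∀ b l, oc S' b l ≤ oc S b l := by
      intro b l
      cases b
      · show occ _ (S' false) ≤ occ _ (S false)
        rw [h2, occ_cons]; omega
      · show occ _ (S' true) ≤ occ _ (S true)
        rw [h1, occ_cons]; omega
    refine ⟨?_, cnt_of_le b hle, ty.imp (fun h => h.of_le hle) (fun h => h.of_le hle), ?_, d⟩
    · have := a
      simp only [Solves, h1, h2, ev_cons] at this ⊢
      exact List.append_cancel_left this
    · intro b z hz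
      cases b
      · exact c false z (by show _ ∈ S false; rw [h2]; exact List.mem_cons_of_mem _ hz)
      · exact c true z (by show _ ∈ S true; rw [h1]; exact List.mem_cons_of_mem _ hz)
  | erase S v D l b R h hv =>
    obtain ⟨a, q, ty, c, d⟩ := hs
    have hu : update v l.1 [] = v := by rw [← hv]; exact update_eq_self _ _
    have hle : ∀ b k, oc (fun b => era l.1 (S b)) b k ≤ oc S b k := fun b k => occ_era_le _ _ _
    refine ⟨?_, cnt_of_le q hle, ty.imp (fun h => h.of_le hle) (fun h => h.of_le hle), ?_, ?_⟩
    · have := a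
      simp only [Solves] at this ⊢
      rw [← ev_era, ← ev_era, hu]; exact this
    · intro b z hz
      have hz' := List.mem_filter.1 hz
      refine ⟨c b z hz'.1, ?_⟩
      intro hzl
      have h1 := hz'.2
      simp only [decide_eq_true_eq] at h1
      exact h1 ((isV_inr _ _).2 hzl)
    · intro z hz
      by_cases hzx : z = l.1
      · rw [hzx]; exact hv
      · exact d z (fun hd => hz ⟨hd, hzx⟩)
  | sub S S' v D b l y r h hy hv =>
    obtain ⟨a, q, ty, c, d⟩ := hs
    have hh := h
    obtain ⟨R, R', h1, h2, h3, h4, h5⟩ := h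
    have hx : l.1 ∈ D := c b l (by show _ ∈ S b; rw [h1]; exact List.mem_cons_self)
    refine ⟨?_, hh.cnt_le q, ty.imp (fun h => hh.K1 h) (fun h => hh.K2 h), ?_, ?_⟩
    · rw [← hh.solves, gr_upd v l y r h3 hv]; exact a
    · have hyD : ∀ z, y = Sum.inr z → z.1 ∈ D := fun z hz => c (!b) z (by
        show _ ∈ S (!b); rw [h2, ← hz]; exact List.mem_cons_self)
      intro b' z hz
      have hz : Sum.inr z ∈ S' b' := hz
      show z.1 ∈ D
      have key : ∀ (T : List (Sy B Λ)) (c' : Bool), (∀ s ∈ T, s ∈ S c') → Sum.inr z ∈ subL l y T →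
          z.1 ∈ D := by
        intro T c' hT hm
        rcases mem_subL hm with hm | hm | hm
        · exact hyD z hm
        · exact hyD (fl z) hm
        · exact c c' z (hT _ hm)
      have hb : b' = b ∨ b' = !b := by cases b' <;> cases b <;> simp
      rcases hb with rfl | rfl
      · rw [h4] at hz
        rcases List.mem_cons.1 hz with hz | hz
        · rw [Sum.inr_injective hz]; exact hx
        · exact key R b' (fun s hs => by rw [h1]; exact List.mem_cons_of_mem _ hs) hz
      · rw [h5] at hz
        exact key R' (!b) (fun s hs => by rw [h2]; exact List.mem_cons_of_mem _ hs) hz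
    · intro z hz
      have : z ≠ l.1 := fun e => hz (by rw [e]; exact hx)
      show upd v l r z = []
      unfold upd
      rw [update_of_ne this]; exact d z hz

theorem Fw.len_le {s s' : St B Λ} (h : Fw s s') (hs : Valid s) : len s'.S ≤ len s.S := by
  cases h with
  | drop S S' v D s h1 h2 => simp [len, h1, h2]; omega
  | erase S v D x b R h hv => exact Nat.add_le_add (length_era_le _ _) (length_era_le _ _)
  | sub S S' v D b x y r h hy hv => exact h.len_le hs.q

theorem Fw.of_len_eq {s s' : St B Λ} (h : Fw s s') (hl : len s'.S = len s.S) :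
    s'.D = s.D ∧ ∃ b l y, SStep s.S s'.S b l y ∧ s.v = gr l y s'.v ∧ evs s'.v y ≠ [] := by
  cases h with
  | drop S S' v D s h1 h2 => simp [len, h1, h2] at hl; omega
  | erase S v D l b R h hv =>
    exfalso
    have h1 : (era l.1 (S b)).length < (S b).length := by rw [h]; exact length_era_lt _ _
    have h2 := length_era_le l.1 (S (!b))
    rw [len_eq _ b, len_eq _ b] at hl
    simp only at hl
    omega
  | sub S S' v D b l y r h hy hv =>
    obtain ⟨R, R', h1, h2, h3, h4, h5⟩ := h
    refine ⟨rfl, b, l, y, ⟨R, R', h1, h2, h3, h4, h5⟩, ?_, ?_⟩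
    · exact (gr_upd v l y r h3 hv).symm
    · show evs (upd v l r) y ≠ []
      rw [evs_upd_ne _ _ _ _ h3]; exact hy

theorem Fw.up {φ : IMor B M} {s s' : St B Λ} (h : Fw s s')
    (hp : PumpAt φ s'.S (fun z => φ.f (s'.v z)) s'.D) :
    PumpAt φ s.S (fun z => φ.f (s.v z)) s.D := by
  cases h with
  | drop S S' v D s h1 h2 =>
    intro κ
    obtain ⟨w, e1, e2⟩ := hp κ
    refine ⟨w, ?_, e2⟩
    have e1' : ev w (S' true) = ev w (S' false) := e1
    show ev w (S true) = ev w (S false)
    rw [h1, h2, ev_cons, ev_cons, e1']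
  | erase S v D l b R h hv =>
    intro κ
    obtain ⟨w, e1, e2, z, hz, c, hc, hcz⟩ := hp κ
    have hzx : z ≠ l.1 := hz.2
    refine ⟨update w l.1 [], ?_, ?_, z, hz.1, c, hc, ?_⟩
    · show ev _ (S true) = ev _ (S false)
      rw [ev_era, ev_era]; exact e1
    · intro z'
      by_cases hzx' : z' = l.1
      · subst hzx'; rw [update_self]; show _ = φ.f (v l.1); rw [hv]
      · rw [update_of_ne hzx']; exact e2 z'
    · rw [update_of_ne hzx]; exact hcz
  | sub S S' v D b l y r h hy hv =>
    intro κ
    have := PumpK.up h (upd v l r) D κ (hp κ)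
    obtain ⟨R, R', h1, h2, h3, h4, h5⟩ := h
    rw [gr_upd v l y r h3 hv] at this
    exact this

variable [Fintype Λ]

def size (s : St B Λ) : ℕ := ∑ z, (s.v z).length

theorem size_upd (v : Λ → Wd B) (l : Λ × Bool) (r : Wd B) :
    ∑ z, (upd v l r z).length + (vl v l).length = ∑ z, (v z).length + r.length := by
  classical
  rw [vl_length, ← Finset.add_sum_erase _ _ (Finset.mem_univ l.1),
    ← Finset.add_sum_erase _ (fun z => (v z).length) (Finset.mem_univ l.1)]
  have h0 : (upd v l r l.1).length = r.length := by
    unfold upd; rw [update_self]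
    split_ifs
    · rfl
    · exact iw_length _
  have : ∑ z ∈ Finset.univ.erase l.1, (upd v l r z).length
      = ∑ z ∈ Finset.univ.erase l.1, (v z).length :=
    Finset.sum_congr rfl fun z hz => by
      unfold upd; rw [update_of_ne (Finset.ne_of_mem_erase hz)]
  rw [this, h0]; ring

theorem Fw.meas {s s' : St B Λ} (h : Fw s s') (hs : Valid s) :
    size s' + len s'.S < size s + len s.S := by
  cases h with
  | drop S S' v D s h1 h2 => simp [len, h1, h2, size]; omega
  | erase S v D l b R h hv =>
    have h1 : (era l.1 (S b)).length < (S b).length := by rw [h]; exact length_era_lt _ _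
    have h2 := length_era_le l.1 (S (!b))
    rw [len_eq _ b, len_eq _ b]
    simp only [size]
    omega
  | sub S S' v D b l y r h hy hv =>
    have h1 := h.len_le hs.q
    have h2 := size_upd v l r
    have h3 := List.length_pos_iff.2 hy
    rw [hv, List.length_append] at h2
    simp only [size]
    omega

theorem length_le_size (v : Λ → Wd B) (z : Λ) : (v z).length ≤ ∑ z, (v z).length :=
  Finset.single_le_sum (f := fun z => (v z).length) (fun _ _ => Nat.zero_le _) (Finset.mem_univ z)

theorem Fw.size_le {s s' : St B Λ} (h : Fw s s') : size s ≤ 2 * size s' + 1 := by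
  cases h with
  | drop S S' v D s h1 h2 => simp only [size]; omega
  | erase S v D x b R h hv => simp only [size]; omega
  | sub S S' v D b l y r h hy hv =>
    obtain ⟨R, R', h1, h2, h3, h4, h5⟩ := h
    have h2 := size_upd v l r
    rw [hv, List.length_append] at h2
    simp only [size]
    have h6 : (evs v y).length ≤ ∑ z, (upd v l r z).length + 1 := by
      rw [← evs_upd_ne v l y r h3]
      rcases y with a | w
      · simp
      · rw [evs_inr, vl_length]
        have := length_le_size (upd v l r) w.1
        omega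
    omega

/-- terminal states -/
def Term (s : St B Λ) : Prop := s.S true = [] ∧ s.S false = []

theorem heads_ne {S : Sys B Λ} (ty : K1 S ∨ K2 S) {x y : Λ × Bool} {R R' : List (Sy B Λ)}
    (h1 : S true = Sum.inr x :: R) (h2 : S false = Sum.inr y :: R') (hne : x ≠ y) :
    y.1 ≠ x.1 := by
  intro h
  rcases eq_or_fl h with h | h
  · exact hne h.symm
  · subst h
    rcases ty with ty | ty
    · have := ty x true
      simp only [oc, h1, Bool.not_true, h2, occ_cons, if_true] at this
      omega
    · obtain ⟨x, e⟩ := x
      cases e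
      · have := ty true x
        simp only [oc, h1, occ_cons, if_true] at this
        omega
      · have := ty false x
        simp only [oc, h2, occ_cons, fl, Bool.not_true, if_true] at this
        omega

theorem vl_nil {v : Λ → Wd B} {l : Λ × Bool} (h : vl v l = []) : v l.1 = [] := by
  have := vl_length v l
  rw [h] at this
  exact List.length_eq_zero_iff.1 this.symm

theorem exists_fw (s : St B Λ) (hs : Valid s) (ht : ¬ Term s) : ∃ s', Fw s s' := by
  obtain ⟨S, v, D⟩ := s
  have hsol : ev v (S true) = ev v (S false) := hs.sol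
  have mk : ∀ (b : Bool) (l : Λ × Bool) (y : Sy B Λ) (R R' : List (Sy B Λ)),
      S b = Sum.inr l :: R →
      S (!b) = y :: R' → ¬ isV l.1 y → evs v y ≠ [] → (evs v y).length ≤ (vl v l).length →
      ∃ s', Fw ⟨S, v, D⟩ s' := by
    intro b l y R R' h1 h2 h3 h4 h5
    have hsol' := (solves_iff v S b).1 hsol
    rw [h1, h2, ev_cons, ev_cons, evs_inr] at hsol'
    obtain ⟨r, hr⟩ : evs v y <+: vl v l := by
      refine List.prefix_of_prefix_length_le (l₃ := vl v l ++ ev v R) ?_ ?_ h5
      · rw [hsol']; exact List.prefix_append _ _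
      · exact List.prefix_append _ _
    refine ⟨_, Fw.sub S (fun c => if c = b then Sum.inr l :: subL l y R else subL l y R') v D b l y r
      ⟨R, R', h1, h2, h3, by simp, by simp⟩ h4 hr.symm⟩
  have hc : ∀ (l : Λ × Bool) (a : B × Bool), ¬ isV l.1 (Sum.inl a : Sy B Λ) := by
    intro l a h
    rcases h with h | h <;> simp at h
  rcases hT : S true with _ | ⟨s, R⟩
  · rcases hF : S false with _ | ⟨t, R'⟩
    · exact absurd ⟨hT, hF⟩ ht
    · rw [hT, hF, ev_nil, ev_cons] at hsol
      have h0 := (List.append_eq_nil_iff.1 hsol.symm).1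
      rcases t with a | x
      · simp at h0
      · exact ⟨_, Fw.erase S v D x false R' hF (vl_nil h0)⟩
  · rcases hF : S false with _ | ⟨t, R'⟩
    · rw [hT, hF, ev_nil, ev_cons] at hsol
      have h0 := (List.append_eq_nil_iff.1 hsol).1
      rcases s with a | x
      · simp at h0
      · exact ⟨_, Fw.erase S v D x true R hT (vl_nil h0)⟩
    · by_cases hst : s = t
      · subst hst
        exact ⟨_, Fw.drop S (fun b => if b then R else R') v D s (by simp [hT]) (by simp [hF])⟩
      · by_cases hs0 : evs v s = []
        · rcases s with a | x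
          · simp at hs0
          · exact ⟨_, Fw.erase S v D x true R hT (vl_nil hs0)⟩
        by_cases ht0 : evs v t = []
        · rcases t with a | x
          · simp at ht0
          · exact ⟨_, Fw.erase S v D x false R' hF (vl_nil ht0)⟩
        have l1 := List.length_pos_iff.2 hs0
        have l2 := List.length_pos_iff.2 ht0
        rcases s with a | x
        · rcases t with b | y
          · rw [hT, hF, ev_cons, ev_cons] at hsol
            simp at hsol
            exact absurd (by rw [hsol.1]) hst
          · refine mk false y (Sum.inl a) R' R hF hT (hc _ _) hs0 ?_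
            simp only [evs_inl, evs_inr, List.length_singleton] at l2 ⊢
            exact l2
        · rcases t with b | y
          · refine mk true x (Sum.inl b) R R' hT hF (hc _ _) ht0 ?_
            simp only [evs_inl, evs_inr, List.length_singleton] at l1 ⊢
            exact l1
          · have hne : x ≠ y := fun e => hst (by rw [e])
            have hv := heads_ne hs.ty hT hF hne
            rcases le_total (vl v y).length (vl v x).length with h | h
            · exact mk true x (Sum.inr y) R R' hT hF (by rw [isV_inr]; exact hv) ht0 h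
            · exact mk false y (Sum.inr x) R' R hF hT (by rw [isV_inr]; exact hv.symm) hs0 h

end Pool.Agent.H860V
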