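import Pool.Agent.H860V.Growth

/-!
# Pumping with involution
-/

set_option autoImplicit false
set_option linter.unusedSectionVars false

namespace Pool.Agent.H860V

open Function Pool.Agent.H860Q

variable {B Λ M : Type} [DecidableEq B] [DecidableEq Λ] [Monoid M]

/-- the variable `x` does not occur in `L` -/
def NV (x : Λ) (L : List (Sy B Λ)) : Prop := ∀ s ∈ L, ¬ isV x s

theorem nv_of_occ (l : Λ × Bool) (L : List (Sy B Λ)) (h1 : occ (Sum.inr l) L = 0)
    (h2 : occ (Sum.inr (fl l)) L = 0) : NV l.1 L := by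
  rw [occ_zero] at h1 h2
  intro s hs hv
  rcases (isV_iff l s).1 hv with h | h
  · exact h1 (h ▸ hs)
  · exact h2 (h ▸ hs)

theorem split_occ (l : Λ × Bool) (L : List (Sy B Λ)) (h : occ (Sum.inr l) L = 1)
    (h' : occ (Sum.inr (fl l)) L = 0) :
    ∃ L1 R1, L = L1 ++ Sum.inr l :: R1 ∧ NV l.1 L1 ∧ NV l.1 R1 := by
  have h1 : Sum.inr l ∈ L := (occ_pos _ L).1 (by omega)
  obtain ⟨L1, R1, rfl⟩ := List.append_of_mem h1
  rw [occ_append, occ_cons, if_pos rfl] at h
  rw [occ_append, occ_cons] at h'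
  exact ⟨L1, R1, rfl, nv_of_occ _ _ (by omega) (by omega), nv_of_occ _ _ (by omega) (by omega)⟩

/-- change the value of an oriented variable -/
def upd (v : Λ → Wd B) (l : Λ × Bool) (w : Wd B) : Λ → Wd B :=
  update v l.1 (if l.2 then w else iw w)

theorem vl_upd (v : Λ → Wd B) (l : Λ × Bool) (w : Wd B) : vl (upd v l w) l = w := by
  obtain ⟨x, e⟩ := l
  cases e
  · simp [vl, upd]
  · simp [vl, upd]

theorem ev_congr {v w : Λ → Wd B} {L : List (Sy B Λ)}
    (h : ∀ s ∈ L, evs v s = evs w s) : ev v L = ev w L := by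
  induction L with
  | nil => rfl
  | cons s L ih =>
    rw [ev_cons, ev_cons, h s List.mem_cons_self,
      ih (fun t ht => h t (List.mem_cons_of_mem _ ht))]

theorem ev_update_nv (v : Λ → Wd B) (x : Λ) (w : Wd B) (L : List (Sy B Λ)) (h : NV x L) :
    ev (update v x w) L = ev v L := by
  apply ev_congr
  intro s hs
  rcases s with a | k
  · rfl
  · have := h _ hs
    rw [isV_inr] at this
    simp [vl, this]

theorem vl_pw {v : Λ → Wd B} {l : Λ × Bool} {c : Wd B} {κ : ℕ} (hc : c ≠ [])
    (h : pw c κ <:+: vl v l) : ∃ c, c ≠ [] ∧ pw c κ <:+: v l.1 := by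
  obtain ⟨x, e⟩ := l
  cases e
  · refine ⟨iw c, fun e => hc (iw_eq_nil e), ?_⟩
    have := iw_inner h
    rw [iw_pw] at this
    simpa [vl] using this
  · exact ⟨c, hc, h⟩

/-- the statement for one exponent -/
def PumpK (φ : IMor B M) (S : Sys B Λ) (m : Λ → M) (D : Set Λ) (κ : ℕ) : Prop :=
  ∃ v : Λ → Wd B, Solves v S ∧ (∀ z, φ.f (v z) = m z) ∧
    ∃ x ∈ D, ∃ c, c ≠ [] ∧ pw c κ <:+: v x

theorem PumpAt.k {φ : IMor B M} {S : Sys B Λ} {m : Λ → M} {D : Set Λ} (h : PumpAt φ S m D)
    (κ : ℕ) : PumpK φ S m D κ := h κ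

theorem PumpK.up {φ : IMor B M} {S S' : Sys B Λ} {b : Bool} {l : Λ × Bool} {y : Sy B Λ}
    (h : SStep S S' b l y) (V : Λ → Wd B) (D : Set Λ) (κ : ℕ)
    (hp : PumpK φ S' (fun z => φ.f (V z)) D κ) : PumpK φ S (fun z => φ.f (gr l y V z)) D κ := by
  obtain ⟨v, h1, h2, z, hz, c, hc, hv⟩ := hp
  exact ⟨gr l y v, (h.solves v).2 h1, fun z => gr_phi φ l y h2 z, z, hz, c, hc,
    hv.trans (inner_gr l (z, true) y v)⟩

theorem PumpAt.mono {φ : IMor B M} {S : Sys B Λ} {m : Λ → M} {D D' : Set Λ} (h : D ⊆ D')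
    (hp : PumpAt φ S m D) : PumpAt φ S m D' := by
  intro κ
  obtain ⟨v, h1, h2, z, hz, r⟩ := hp κ
  exact ⟨v, h1, h2, z, h hz, r⟩

section twist

variable (φ : IMor B M) (S : Sys B Λ) (V : Λ → Wd B) (l : Λ × Bool) (b : Bool)
    (L1 R1 L2 R2 : List (Sy B Λ))
    (hs1 : S b = L1 ++ Sum.inr l :: R1) (hs2 : S (!b) = L2 ++ Sum.inr l :: R2)
    (n1 : NV l.1 L1) (n2 : NV l.1 R1) (n3 : NV l.1 L2) (n4 : NV l.1 R2)
include hs1 hs2 n1 n2 n3 n4

theorem upd_solves (w : Wd B) (hw : ev V L1 ++ (w ++ ev V R1) = ev V L2 ++ (w ++ ev V R2)) :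
    Solves (upd V l w) S := by
  rw [solves_iff _ _ b, hs1, hs2, ev_append, ev_append, ev_cons, ev_cons, evs_inr, vl_upd]
  unfold upd
  rw [ev_update_nv _ _ _ _ n1, ev_update_nv _ _ _ _ n2, ev_update_nv _ _ _ _ n3,
    ev_update_nv _ _ _ _ n4, hw]

omit hs1 hs2 n1 n2 n3 n4 in
theorem upd_val (w : Wd B) (hw : φ.f w = φ.f (vl V l)) (z : Λ) :
    φ.f (upd V l w z) = φ.f (V z) := by
  by_cases hz : z = l.1
  · subst hz
    unfold upd
    rw [update_self]
    obtain ⟨x, e⟩ := l
    cases e
    · have h1 : φ.f w = φ.f (iw (V x)) := hw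
      show φ.f (iw w) = φ.f (V x)
      rw [φ.f_iw, h1, ← φ.f_iw, iw_iw]
    · exact hw
  · unfold upd; rw [update_of_ne hz]

theorem free_pump [Finite M] (he : ev V L1 = ev V L2) (he' : ev V R1 = ev V R2)
    (hlong : Nat.card M < (vl V l).length) :
    PumpAt φ S (fun z => φ.f (V z)) {l.1} := by
  obtain ⟨x, y, z, hw, hy, hk⟩ := pump_word φ.toMor (vl V l) hlong
  intro κ
  obtain ⟨c, hc, hcc⟩ := vl_pw (v := upd V l (x ++ pw y κ ++ z)) (l := l) (κ := κ) hy (by
    rw [vl_upd]; exact ⟨x, z, rfl⟩)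
  exact ⟨upd V l (x ++ pw y κ ++ z),
    upd_solves S V l b L1 R1 L2 R2 hs1 hs2 n1 n2 n3 n4 _ (by rw [he, he']),
    upd_val φ V l _ (hk κ), l.1, rfl, c, hc, hcc⟩

theorem twist [Finite M] (e : M)
    (hsol : Solves V S) (hl : (ev V L1).length ≤ (ev V L2).length)
    (hgood : LJ e (φ.f (ev V L2 ++ vl V l))) (hW : LJ (φ.f (vl V l)) e)
    (hlong : Nat.card M < (vl V l).length) :
    PumpAt φ S (fun z => φ.f (V z)) {l.1} := by
  have hsol' := (solves_iff _ _ b).1 hsol
  rw [hs1, hs2, ev_append, ev_append, ev_cons, ev_cons, evs_inr] at hsol'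
  obtain ⟨c, hc⟩ : ev V L1 <+: ev V L2 := by
    refine List.prefix_of_prefix_length_le (l₃ := ev V L1 ++ (vl V l ++ ev V R1)) ?_ ?_ hl
    · exact List.prefix_append _ _
    · rw [hsol']; exact List.prefix_append _ _
  have hE : vl V l ++ ev V R1 = c ++ (vl V l ++ ev V R2) := by
    rw [← hc, List.append_assoc] at hsol'
    exact List.append_cancel_left hsol'
  by_cases hc0 : c = []
  · subst hc0
    rw [List.nil_append] at hE
    rw [List.append_nil] at hc
    exact free_pump φ S V l b L1 R1 L2 R2 hs1 hs2 n1 n2 n3 n4 hc (List.append_cancel_left hE) hlong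
  · obtain ⟨m', hm'⟩ : vl V l <+: c ++ vl V l := by
      refine List.prefix_of_prefix_length_le (l₃ := vl V l ++ ev V R1) ?_ ?_ (by simp)
      · exact List.prefix_append _ _
      · rw [hE, ← List.append_assoc]; exact List.prefix_append _ _
    have hcw : φ.f c * φ.f (vl V l) = φ.f (vl V l) * φ.f m' := by rw [← φ.mul, ← φ.mul, hm']
    have hle : LJ (φ.f (vl V l)) (φ.f c * φ.f (vl V l)) := by
      refine hW.trans (hgood.trans ?_)
      rw [← hc, List.append_assoc, φ.mul, φ.mul]
      exact LJ.mul_left _ _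
    obtain ⟨s, t, hst⟩ := hle
    obtain ⟨u, hu⟩ := stab s (φ.f c) (φ.f (vl V l)) t (by rw [mul_assoc s]; exact hst)
    have hci : ∀ i : ℕ, φ.f c ^ i * φ.f (vl V l) = φ.f (vl V l) * φ.f m' ^ i := by
      intro i
      induction i with
      | zero => simp
      | succ i ih => rw [pow_succ', mul_assoc, ih, ← mul_assoc, hcw, mul_assoc, ← pow_succ']
    have hui : ∀ i : ℕ, u * (φ.f c ^ (i + 1) * φ.f (vl V l)) = φ.f c ^ i * φ.f (vl V l) := by
      intro i
      rw [pow_succ', mul_assoc, hci, ← mul_assoc (φ.f c), ← mul_assoc u, ← hu]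
    have huk : ∀ i k : ℕ, u ^ i * (φ.f c ^ (i + k) * φ.f (vl V l)) =
        φ.f c ^ k * φ.f (vl V l) := by
      intro i k
      induction i with
      | zero => simp
      | succ i ih =>
        rw [pow_succ, mul_assoc, show i + 1 + k = (i + k) + 1 by ring, hui, ih]
    obtain ⟨i, j, hij, he⟩ : ∃ i j : ℕ, i < j ∧
        φ.f c ^ i * φ.f (vl V l) = φ.f c ^ j * φ.f (vl V l) := by
      obtain ⟨i, j, hne, he⟩ :=
        Finite.exists_ne_map_eq_of_infinite (fun n : ℕ => φ.f c ^ n * φ.f (vl V l))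
      rcases lt_or_gt_of_ne hne with h1 | h1
      · exact ⟨i, j, h1, he⟩
      · exact ⟨j, i, h1, he.symm⟩
    obtain ⟨r, rfl⟩ := Nat.exists_eq_add_of_lt hij
    have hr : φ.f c ^ (r + 1) * φ.f (vl V l) = φ.f (vl V l) := by
      have h1 := huk i 0
      rw [add_zero, he, show i + r + 1 = i + (r + 1) by ring, huk] at h1
      simpa using h1
    have hrk : ∀ k : ℕ, φ.f c ^ ((r + 1) * k) * φ.f (vl V l) = φ.f (vl V l) := by
      intro k
      induction k with
      | zero => simp
      | succ k ih => rw [Nat.mul_succ, pow_add, mul_assoc, hr, ih]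
    intro κ
    obtain ⟨c', hc', hcc⟩ := vl_pw (v := upd V l (pw c ((r + 1) * κ) ++ vl V l)) (l := l) (κ := κ)
      hc0 (by rw [vl_upd]; exact pw_infix_append _ _ _ _ (Nat.succ_pos r))
    refine ⟨upd V l (pw c ((r + 1) * κ) ++ vl V l),
      upd_solves S V l b L1 R1 L2 R2 hs1 hs2 n1 n2 n3 n4 _ ?_, upd_val φ V l _ ?_, l.1, rfl,
      c', hc', hcc⟩
    · rw [← hc, List.append_assoc, hE, List.append_assoc, List.append_assoc,
        ← List.append_assoc (pw c _) c, ← pw_comm]
      simp only [List.append_assoc]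
    · rw [φ.mul, φ.toMor.pw, hrk]

end twist

theorem pw_start (c w : Wd B) (κ : ℕ) (h : w <+: c ++ w) (hl : κ * c.length ≤ w.length) :
    pw c κ <+: w := by
  induction κ generalizing w with
  | zero => simp
  | succ κ ih =>
    have h1 : c <+: w := by
      refine List.prefix_of_prefix_length_le (l₃ := c ++ w) (List.prefix_append _ _) h ?_
      have : c.length ≤ (κ + 1) * c.length := Nat.le_mul_of_pos_left c.length (Nat.succ_pos κ)
      omega
    obtain ⟨w', rfl⟩ := h1
    rw [pw_succ]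
    rw [List.prefix_append_right_inj] at h ⊢
    apply ih _ h
    rw [List.length_append] at hl
    have : (κ + 1) * c.length = κ * c.length + c.length := by ring
    omega

namespace Gr

variable {φ : IMor B M} (G : Gr φ Λ)

theorem up (n k : ℕ) (D : Set Λ) (κ : ℕ) (h : PumpK φ (G.S n) (fun z => φ.f (G.V n z)) D κ) :
    PumpK φ (G.S (n + k)) (fun z => φ.f (G.V (n + k) z)) D κ := by
  induction k with
  | zero => exact h
  | succ k ih =>
    rw [← add_assoc, G.hV]
    exact PumpK.up (G.step (n + k)) _ _ _ ih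

theorem up0K (n : ℕ) (D : Set Λ) (κ : ℕ) (h : PumpK φ (G.S n) (fun z => φ.f (G.V n z)) D κ) :
    PumpK φ (G.S 0) (fun z => φ.f (G.V 0 z)) D κ := by
  obtain ⟨k, hk⟩ := Nat.exists_eq_add_of_le (G.le_mul n 0)
  have := G.up n k D κ h
  rw [← hk] at this
  rw [G.perS'] at this
  simp only [G.perV'] at this
  exact this

theorem up0 (n : ℕ) (D : Set Λ) (h : PumpAt φ (G.S n) (fun z => φ.f (G.V n z)) D) :
    PumpAt φ (G.S 0) (fun z => φ.f (G.V 0 z)) D := fun κ => G.up0K n D κ (h κ)

theorem coherent (hm : ∃ n, G.X (n + 1) ≠ G.X n)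
    (hty : (∀ n, K1 (G.S n)) ∨ (∀ n, K2 (G.S n))) :
    ∃ n i, ∃ l : Λ × Bool, (l = G.X i ∨ l = fl (G.X i)) ∧
      ∀ b, oc (G.S n) b l = 1 ∧ oc (G.S n) b (fl l) = 0 := by
  obtain ⟨n, hne⟩ := hm
  obtain ⟨hB, hYn, hvar⟩ := G.chg n hne
  obtain ⟨R, R', h1, h2, h3, h4, h5⟩ := G.step n
  obtain ⟨T, T', g1, g2, g3, g4, g5⟩ := G.step (n + 1)
  have c1 := SStep.len_eq' h1 h2 h4 h5
  rw [G.hlen n] at c1
  have c2 := SStep.len_eq' g1 g2 g4 g5
  rw [G.hlen (n + 1)] at c2
  obtain ⟨m1, m2⟩ := not_isV g3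
  rw [hB, Bool.not_not] at g5
  rw [hB] at g4
  rw [hYn] at h2 h4 h5
  set a := G.X (n + 1) with ha
  set b := G.X n with hb
  have q1 : (Sum.inr b : Sy B Λ) ≠ Sum.inr a := fun e => hvar (by rw [Sum.inr_injective e])
  have q2 : (Sum.inr b : Sy B Λ) ≠ Sum.inr (fl a) :=
    fun e => hvar (by rw [Sum.inr_injective e]; rfl)
  have q3 : (Sum.inr a : Sy B Λ) ≠ Sum.inr (fl b) :=
    fun e => hvar (by rw [Sum.inr_injective e]; rfl)
  have q4 : (Sum.inr a : Sy B Λ) ≠ Sum.inr (fl a) := inr_ne_fl a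
  have q5 : (Sum.inr b : Sy B Λ) ≠ Sum.inr (fl b) := inr_ne_fl b
  -- counts of `a`
  have e1 : oc (G.S (n + 1)) (!G.B' n) a = occ (Sum.inr a) T + 1 := by
    simp only [oc, g4, occ_cons, occ_subL, m1, m2, if_false, if_true]
  have e2 : oc (G.S (n + 1)) (!G.B' n) (fl a) = occ (Sum.inr (fl a)) T := by
    simp only [oc, g4, occ_cons, occ_subL, m1, m2, q4, if_false, fl_fl]; omega
  have e3 : oc (G.S (n + 1)) (G.B' n) a = occ (Sum.inr a) T' := by
    simp only [oc, g5, occ_subL, m1, m2, if_false]; omega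
  have e4 : oc (G.S (n + 1)) (G.B' n) (fl a) = occ (Sum.inr (fl a)) T' := by
    simp only [oc, g5, occ_subL, m1, m2, if_false, fl_fl]; omega
  have f1 : oc (G.S (n + 1)) (!G.B' n) a = occ (Sum.inr a) R' + 1 := by
    simp only [oc, h2, occ_cons, if_true]
  have f2 : oc (G.S (n + 1)) (!G.B' n) (fl a) = occ (Sum.inr (fl a)) R' := by
    simp only [oc, h2, occ_cons, q4, if_false]; omega
  have f3 : oc (G.S (n + 1)) (G.B' n) a = occ (Sum.inr a) R := by
    simp only [oc, h1, occ_cons, q1, if_false]; omega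
  have f4 : oc (G.S (n + 1)) (G.B' n) (fl a) = occ (Sum.inr (fl a)) R := by
    simp only [oc, h1, occ_cons, q2, if_false]; omega
  -- counts of `b` at level `n + 1`
  have k1 : oc (G.S (n + 1)) (G.B' n) b = occ (Sum.inr b) R + 1 := by
    simp only [oc, h1, occ_cons, if_true]
  have k2 : oc (G.S (n + 1)) (G.B' n) (fl b) = occ (Sum.inr (fl b)) R := by
    simp only [oc, h1, occ_cons, q5, if_false]; omega
  have k3 : oc (G.S (n + 1)) (!G.B' n) b = occ (Sum.inr b) R' := by
    simp only [oc, h2, occ_cons, q1.symm, if_false]; omega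
  have k4 : oc (G.S (n + 1)) (!G.B' n) (fl b) = occ (Sum.inr (fl b)) R' := by
    simp only [oc, h2, occ_cons, q3, if_false]; omega
  -- counts of `a` at level `n`
  have j1 : oc (G.S n) (G.B' n) a = occ (Sum.inr a) R + occ (Sum.inr b) R := by
    simp only [oc, h4, occ_cons, occ_subL, q1, q4, if_false, if_true]; omega
  have j2 : oc (G.S n) (!G.B' n) a = occ (Sum.inr a) R' + occ (Sum.inr b) R' := by
    simp only [oc, h5, occ_subL, q4, if_false, if_true]; omega
  have j3 : oc (G.S n) (G.B' n) (fl a) = occ (Sum.inr (fl a)) R + occ (Sum.inr (fl b)) R := by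
    simp only [oc, h4, occ_cons, occ_subL, q2, q4, if_false, if_true, fl_fl]; omega
  have j4 : oc (G.S n) (!G.B' n) (fl a) = occ (Sum.inr (fl a)) R' + occ (Sum.inr (fl b)) R' := by
    simp only [oc, h5, occ_subL, q4, if_false, if_true, fl_fl]; omega
  have key : ∀ (m : ℕ) (z : Λ × Bool), oc (G.S m) (G.B' n) z = 1 → oc (G.S m) (!G.B' n) z = 1 →
      oc (G.S m) (G.B' n) (fl z) = 0 → oc (G.S m) (!G.B' n) (fl z) = 0 →
      ∀ s, oc (G.S m) s z = 1 ∧ oc (G.S m) s (fl z) = 0 := by
    intro m z w1 w2 w3 w4 s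
    have : s = G.B' n ∨ s = !G.B' n := by cases s <;> cases G.B' n <;> simp
    rcases this with rfl | rfl
    · exact ⟨w1, w3⟩
    · exact ⟨w2, w4⟩
  by_cases hA : occ (Sum.inr a) R = 1
  · exact ⟨n + 1, n + 1, a, Or.inl rfl, key (n + 1) a (by omega) (by omega) (by omega) (by omega)⟩
  by_cases hB' : occ (Sum.inr b) R' = 1
  · exact ⟨n + 1, n, b, Or.inl rfl, key (n + 1) b (by omega) (by omega) (by omega) (by omega)⟩
  rcases hty with hty | hty
  · have t1 := hty (n + 1) a (!G.B' n)
    have t2 := hty (n + 1) b (G.B' n)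
    rw [Bool.not_not] at t1
    refine ⟨n, n + 1, fl a, Or.inr rfl, key n (fl a) (by omega) (by omega) ?_ ?_⟩
    · rw [fl_fl]; omega
    · rw [fl_fl]; omega
  · have ha2 : fl a = (a.1, false) := by
      have := hty (n + 1) (!G.B' n) a.1
      by_contra hcon
      have h6 : a = (a.1, false) := by
        refine Prod.ext rfl ?_
        by_contra h7
        apply hcon
        have : a.2 = true := by simpa using h7
        simp [fl, this]
      rw [← h6] at this
      omega
    have hb2 : fl b = (b.1, false) := by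
      have := hty (n + 1) (G.B' n) b.1
      by_contra hcon
      have h6 : b = (b.1, false) := by
        refine Prod.ext rfl ?_
        by_contra h7
        apply hcon
        have : b.2 = true := by simpa using h7
        simp [fl, this]
      rw [← h6] at this
      omega
    have t1 := hty (n + 1) (!G.B' n) a.1
    have t2 := hty (n + 1) (G.B' n) a.1
    have t3 := hty (n + 1) (!G.B' n) b.1
    have t4 := hty (n + 1) (G.B' n) b.1
    rw [← ha2] at t1 t2
    rw [← hb2] at t3 t4
    exact ⟨n, n + 1, a, Or.inl rfl, key n a (by omega) (by omega) (by omega) (by omega)⟩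

theorem tau_tau : φ.tau (φ.tau G.e) = G.e := by
  unfold e
  rw [← φ.f_iw, ← φ.f_iw, iw_iw]

theorem multi [Finite M] (hm : ∃ n, G.X (n + 1) ≠ G.X n)
    (hty : (∀ n, K1 (G.S n)) ∨ (∀ n, K2 (G.S n))) :
    ∃ i, PumpAt φ (G.S 0) (fun z => φ.f (G.V 0 z)) {(G.X i).1} := by
  obtain ⟨n0, i, l, hl, hcount⟩ := G.coherent hm hty
  refine ⟨i, ?_⟩
  have hl1 : l.1 = (G.X i).1 := by rcases hl with rfl | rfl <;> rfl
  rw [← hl1]
  obtain ⟨L1, R1, e1, a1, a2⟩ := split_occ l _ (hcount true).1 (hcount true).2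
  obtain ⟨L2, R2, e2, a3, a4⟩ := split_occ l _ (hcount false).1 (hcount false).2
  -- the main case: goodness at both occurrences
  have main : ∀ k, (∀ L R, G.base (n0 + k * G.p) = L ++ G.W (n0 + k * G.p) l ++ R →
      LJ G.e (φ.f (L ++ G.W (n0 + k * G.p) l))) → LJ (φ.f (G.W (n0 + k * G.p) l)) G.e →
      Nat.card M < (G.W (n0 + k * G.p) l).length →
      PumpAt φ (G.S 0) (fun z => φ.f (G.V 0 z)) {l.1} := by
    intro k hgood hle hlong
    set n := n0 + k * G.p with hn
    have hS : G.S n = G.S n0 := G.perS' _ _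
    have e1' := e1
    have e2' := e2
    rw [← hS] at e1' e2'
    refine G.up0 n _ ?_
    have b1 := hgood (ev (G.V n) L1) (ev (G.V n) R1) (by
      rw [← G.base_eq n true, e1']; simp)
    have b2 := hgood (ev (G.V n) L2) (ev (G.V n) R2) (by
      rw [← G.base_eq n false, e2']; simp)
    rcases le_total (ev (G.V n) L1).length (ev (G.V n) L2).length with h | h
    · exact twist φ _ _ l true L1 R1 L2 R2 e1' e2' a1 a2 a3 a4 G.e (G.solves n) h b2 hle hlong
    · exact twist φ _ _ l false L2 R2 L1 R1 e2' e1' a3 a4 a1 a2 G.e (G.solves n) h b1 hle hlong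
  obtain ⟨N2, hN2⟩ := G.long i (Nat.card M + 1)
  have hlen : ∀ n, (G.W n l).length = (G.W n (G.X i)).length := by
    intro n
    rw [vl_length, vl_length, hl1]
  rcases hl with hl | hl
  · obtain ⟨N1, hN1⟩ := G.occ_good hm i
    have g1 : N1 + N2 ≤ n0 + (N1 + N2) * G.p := G.le_mul _ _
    apply main (N1 + N2)
    · rw [hl]; exact hN1 _ (by omega)
    · rw [hl]; exact G.le_e _ _
    · rw [hlen]
      have := hN2 (n0 + (N1 + N2) * G.p) (by omega)
      omega
  · by_cases hE : ∃ k, (G.base 0).length ≤ (ev (G.V (n0 + k * G.p)) R1).length ∨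
        (G.base 0).length ≤ (ev (G.V (n0 + k * G.p)) R2).length
    · -- both orientations have the same J-class
      have hee : LJ G.e (φ.tau G.e) := by
        obtain ⟨k, hk⟩ := hE
        set n := n0 + k * G.p with hn
        have hS : G.S n = G.S n0 := G.perS' _ _
        have e1' := e1
        have e2' := e2
        rw [← hS] at e1' e2'
        obtain ⟨Z, E, h1, h2, h3⟩ := G.good_start n
        have aux : ∀ L R : Wd B, G.base n = L ++ G.W n l ++ R → (G.base 0).length ≤ R.length →
            LJ G.e (φ.tau G.e) := by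
          intro L R hb hR
          obtain ⟨ρ, hρ⟩ : L ++ G.W n l <+: Z := by
            refine List.prefix_of_prefix_length_le (l₃ := G.base n) ?_ ?_ ?_
            · rw [hb]; exact List.prefix_append _ _
            · rw [h1]; exact List.prefix_append _ _
            · have h5 := congrArg List.length hb
              rw [h1] at h5
              simp only [List.length_append] at h5 ⊢
              omega
          rw [← hρ, φ.mul, φ.mul] at h3
          refine (h3.trans (LJ.mul_right _ _)).trans ((LJ.mul_left _ _).trans ?_)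
          rw [hl, W, vl_fl, φ.f_iw]
          exact LJ_tau φ (G.le_e _ _)
        rcases hk with hk | hk
        · exact aux (ev (G.V n) L1) (ev (G.V n) R1) (by
            rw [← G.base_eq n true, e1']; simp) hk
        · exact aux (ev (G.V n) L2) (ev (G.V n) R2) (by
            rw [← G.base_eq n false, e2']; simp) hk
      have hee' : LJ (φ.tau G.e) G.e := by
        have := LJ_tau φ hee
        rwa [G.tau_tau] at this
      obtain ⟨N1, hN1⟩ := G.occ_good_fl hm i hee hee'
      have g1 : N1 + N2 ≤ n0 + (N1 + N2) * G.p := G.le_mul _ _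
      apply main (N1 + N2)
      · rw [hl]; exact hN1 _ (by omega)
      · rw [hl, W, vl_fl, φ.f_iw]; exact (LJ_tau φ (G.le_e _ _)).trans hee'
      · rw [hlen]
        have := hN2 (n0 + (N1 + N2) * G.p) (by omega)
        omega
    · -- the period is short
      push Not at hE
      intro κ
      obtain ⟨N3, hN3⟩ := G.long i (κ * (G.base 0).length + 1)
      have g1 : N2 + N3 ≤ n0 + (N2 + N3) * G.p := G.le_mul _ _
      have hk := hE (N2 + N3)
      set n := n0 + (N2 + N3) * G.p with hn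
      have hS : G.S n = G.S n0 := G.perS' _ _
      have e1' := e1
      have e2' := e2
      rw [← hS] at e1' e2'
      have hlW : κ * (G.base 0).length + 1 ≤ (G.W n l).length := by
        rw [hlen]; exact hN3 n (by omega)
      have hlM : Nat.card M < (G.W n l).length := by
        rw [hlen]
        have := hN2 n (by omega)
        omega
      have b1 : G.base n = ev (G.V n) L1 ++ (G.W n l ++ ev (G.V n) R1) := by
        rw [← G.base_eq n true, e1']; simp
      have b2 : G.base n = ev (G.V n) L2 ++ (G.W n l ++ ev (G.V n) R2) := by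
        rw [← G.base_eq n false, e2']; simp
      have short : ∀ A1 E1 A2 E2 : Wd B, G.base n = A1 ++ (G.W n l ++ E1) →
          G.base n = A2 ++ (G.W n l ++ E2) → A1.length < A2.length →
          E1.length < (G.base 0).length → ∃ c, c ≠ [] ∧ pw c κ <:+: G.V n l.1 := by
        intro A1 E1 A2 E2 b1 b2 hlt hE1
        obtain ⟨c, hc⟩ : A1 <+: A2 := by
          refine List.prefix_of_prefix_length_le (l₃ := G.base n) ?_ ?_ hlt.le
          · rw [b1]; exact List.prefix_append _ _
          · rw [b2]; exact List.prefix_append _ _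
        have hc0 : c ≠ [] := by rintro rfl; rw [List.append_nil] at hc; rw [hc] at hlt; omega
        have h6 : G.W n l ++ E1 = c ++ (G.W n l ++ E2) := by
          have := b1.symm.trans b2
          rw [← hc, List.append_assoc] at this
          exact List.append_cancel_left this
        have h7 : G.W n l <+: c ++ G.W n l := by
          refine List.prefix_of_prefix_length_le (l₃ := G.W n l ++ E1) ?_ ?_ (by simp)
          · exact List.prefix_append _ _
          · rw [h6, ← List.append_assoc]; exact List.prefix_append _ _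
        have h8 : c.length ≤ (G.base 0).length := by
          have := congrArg List.length h6
          simp only [List.length_append] at this
          omega
        have h9 := pw_start c _ κ h7 (by
          have := Nat.mul_le_mul_left κ h8
          omega)
        exact vl_pw hc0 h9.isInfix
      rcases Nat.lt_trichotomy (ev (G.V n) L1).length (ev (G.V n) L2).length with h | h | h
      · obtain ⟨c, hc, hcc⟩ := short _ _ _ _ b1 b2 h hk.1
        exact G.up0K n {l.1} κ ⟨G.V n, G.solves n, fun _ => rfl, l.1, rfl, c, hc, hcc⟩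
      · have h10 := b1.symm.trans b2
        obtain ⟨h11, h12⟩ := List.append_inj h10 h
        exact G.up0 n {l.1} (free_pump φ _ _ l true L1 R1 L2 R2 e1' e2' a1 a2 a3 a4 h11
          (List.append_cancel_left h12) hlM) κ
      · obtain ⟨c, hc, hcc⟩ := short _ _ _ _ b2 b1 h hk.2
        exact G.up0K n {l.1} κ ⟨G.V n, G.solves n, fun _ => rfl, l.1, rfl, c, hc, hcc⟩

/-- the product of the losers up to level `n` -/
def tt : ℕ → Wd B
  | 0 => []
  | n + 1 => evs (G.V 0) (G.Y n) ++ tt n

theorem single (hx : ∀ n, G.X (n + 1) = G.X n) :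
    PumpAt φ (G.S 0) (fun z => φ.f (G.V 0 z)) {(G.X 0).1} := by
  have hX : ∀ n, G.X n = G.X 0 := by
    intro n
    induction n with
    | zero => rfl
    | succ n ih => rw [hx, ih]
  have hz : ∀ n (k : Λ × Bool), k.1 ≠ (G.X 0).1 → G.W n k = G.W 0 k := by
    intro n k hk
    induction n with
    | zero => rfl
    | succ n ih => unfold W at ih ⊢; rw [G.hV, vl_gr_ne _ _ _ _ (by rw [hX]; exact hk), ih]
  have hy : ∀ n, evs (G.V n) (G.Y n) = evs (G.V 0) (G.Y n) := by
    intro n
    obtain ⟨R, R', h1, h2, h3, h4, h5⟩ := G.step n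
    rcases hY : G.Y n with a | y
    · rfl
    · rw [evs_inr, evs_inr]
      rw [hY, isV_inr, hX n] at h3
      exact hz n y h3
  have ht : ∀ n, G.W n (G.X 0) = G.tt n ++ G.W 0 (G.X 0) := by
    intro n
    induction n with
    | zero => simp [tt]
    | succ n ih =>
      have h1 : G.X n = G.X 0 := hX n
      unfold W at ih ⊢
      rw [G.hV]
      conv_lhs => rw [← h1]
      rw [vl_gr_self, hy, h1, ih, tt, List.append_assoc]
  have hp : ∀ n, G.tt (n + G.p) = G.tt n ++ G.tt G.p := by
    intro n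
    induction n with
    | zero => simp [tt]
    | succ n ih =>
      rw [show n + 1 + G.p = (n + G.p) + 1 by ring, tt, tt, ih, G.perY, List.append_assoc]
  have hpk : ∀ k, G.tt (k * G.p) = pw (G.tt G.p) k := by
    intro k
    induction k with
    | zero => simp [tt]
    | succ k ih => rw [Nat.succ_mul, hp, ih, pw_succ']
  have hne : G.tt G.p ≠ [] := by
    obtain ⟨q, hq⟩ : ∃ q, G.p = q + 1 := ⟨G.p - 1, by have := G.hp; omega⟩
    rw [hq, tt]
    intro h
    have := (List.append_eq_nil_iff.1 h).1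
    rw [← hy] at this
    exact G.hY q this
  intro κ
  have h1 : pw (G.tt G.p) κ <:+: G.W (κ * G.p) (G.X 0) := by
    rw [ht, hpk]
    exact (List.prefix_append _ _).isInfix
  obtain ⟨c, hc, hcc⟩ := vl_pw hne h1
  refine ⟨G.V (κ * G.p), ?_, ?_, (G.X 0).1, rfl, c, hc, hcc⟩
  · have := G.solves (0 + κ * G.p)
    rw [G.perS'] at this
    simpa using this
  · intro z
    have := G.perV' 0 κ z
    simpa using this

theorem pump [Finite M] (hty : (∀ n, K1 (G.S n)) ∨ (∀ n, K2 (G.S n))) :
    ∃ i, PumpAt φ (G.S 0) (fun z => φ.f (G.V 0 z)) {(G.X i).1} := by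
  by_cases h : ∃ n, G.X (n + 1) ≠ G.X n
  · exact G.multi h hty
  · push Not at h
    exact ⟨0, G.single h⟩

end Gr

end Pool.Agent.H860V
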