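import Pool.Agent.H860V.Er

/-!
# The word equation of a free group equation
-/

set_option autoImplicit false
set_option linter.unusedSectionVars false

namespace Pool.Agent.H860V

open Function Pool.Agent.H860Q

variable {A Ω : Type} [DecidableEq A] [DecidableEq Ω] (m : ℕ)

/-- variables: the original ones and the auxiliary ones -/
abbrev La (Ω : Type) (m : ℕ) := Ω ⊕ (Fin 4 × Fin (m + 1))

abbrev ix (m n : ℕ) : Fin (m + 1) := Fin.ofNat (m + 1) n

/-- the separator -/
def hs : Sy (Option A) (La Ω m) := Sum.inl (none, true)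

/-- the auxiliary variables -/
def vr (k : Fin 4) (n : ℕ) (e : Bool) : Sy (Option A) (La Ω m) :=
  Sum.inr (Sum.inr (k, ix m n), e)

/-- the letters of the equation -/
def em : (A ⊕ Ω) × Bool → Sy (Option A) (La Ω m)
  | (Sum.inl a, e) => Sum.inl (some a, e)
  | (Sum.inr X, e) => Sum.inr (Sum.inl X, e)

def TT : ℕ → List ((A ⊕ Ω) × Bool) → List (Sy (Option A) (La Ω m))
  | n, [] => [vr m 0 n true, vr m 1 n true, vr m 2 n true, vr m 3 n true, hs m]
  | n, s :: W => vr m 0 n true :: hs m :: vr m 1 n true :: vr m 3 n true :: hs m :: em m s ::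
      hs m :: TT (n + 1) W

def FF : ℕ → List ((A ⊕ Ω) × Bool) → List (Sy (Option A) (La Ω m))
  | _, [] => [hs m]
  | n, _ :: W => vr m 1 n true :: vr m 2 n true :: hs m :: vr m 0 (n + 1) true :: hs m ::
      vr m 2 n false :: vr m 3 n true :: hs m :: FF (n + 1) W

/-- the system of the equation `W = 1` -/
def S0 (W : List ((A ⊕ Ω) × Bool)) : Sys (Option A) (La Ω m) := fun b =>
  if b then hs m :: TT m 0 W else vr m 0 0 true :: hs m :: FF m 0 W

/-! ### values -/

/-- words without separator -/
def emb (w : Wd A) : Wd (Option A) := w.map (fun c => (some c.1, c.2))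

def unemb (w : Wd (Option A)) : Wd A := w.filterMap (fun c => c.1.map (fun a => (a, c.2)))

@[simp] theorem emb_nil : emb ([] : Wd A) = [] := rfl
theorem emb_append (u w : Wd A) : emb (u ++ w) = emb u ++ emb w := by simp [emb]
theorem emb_cons (c : A × Bool) (w : Wd A) : emb (c :: w) = (some c.1, c.2) :: emb w := rfl

theorem unemb_emb (w : Wd A) : unemb (emb w) = w := by
  induction w with
  | nil => rfl
  | cons c w ih =>
    rw [emb_cons]
    simp only [unemb, List.filterMap_cons, Option.map_some] at ih ⊢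
    rw [ih]

theorem emb_injective : Injective (emb : Wd A → Wd (Option A)) :=
  LeftInverse.injective unemb_emb

theorem emb_unemb (w : Wd (Option A)) (h : ∀ c ∈ w, c.1 ≠ none) : emb (unemb w) = w := by
  induction w with
  | nil => rfl
  | cons c w ih =>
    obtain ⟨a, e⟩ := c
    rcases a with _ | a
    · exact absurd rfl (h _ List.mem_cons_self)
    · have := ih (fun c hc => h c (List.mem_cons_of_mem _ hc))
      simp only [unemb, List.filterMap_cons, Option.map_some] at this ⊢
      rw [emb_cons, this]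

theorem emb_iw (w : Wd A) : iw (emb w) = emb (iw w) := by
  induction w with
  | nil => rfl
  | cons c w ih =>
    have h1 : iw (c :: w) = iw w ++ [(c.1, !c.2)] := by simp [FreeGroup.invRev]
    have h2 : iw (emb (c :: w)) = iw (emb w) ++ [(some c.1, !c.2)] := by
      rw [emb_cons]; simp [FreeGroup.invRev]
    rw [h1, h2, ih, emb_append]; rfl

theorem emb_split (u w : Wd A) (x y : Wd (Option A)) :
    emb u ++ (none, true) :: x = emb w ++ (none, true) :: y ↔ u = w ∧ x = y := by
  constructor
  · intro h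
    induction u generalizing w with
    | nil =>
      rcases w with _ | ⟨d, w⟩
      · exact ⟨rfl, (List.cons.inj h).2⟩
      · rw [emb_cons] at h
        have := congrArg Prod.fst (List.cons.inj h).1
        simp at this
    | cons c u ih =>
      rcases w with _ | ⟨d, w⟩
      · rw [emb_cons] at h
        have := congrArg Prod.fst (List.cons.inj h).1
        simp at this
      · rw [emb_cons, emb_cons] at h
        obtain ⟨h1, h2⟩ := List.cons.inj h
        obtain ⟨e1, e2⟩ := ih w h2
        refine ⟨?_, e2⟩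
        rw [e1]
        congr 1
        have h3 := (Prod.mk.inj h1)
        exact Prod.ext (Option.some.inj h3.1) h3.2
  · rintro ⟨rfl, rfl⟩; rfl

/-- the values of the letters of the equation -/
def sv (t : Ω → Wd A) : (A ⊕ Ω) × Bool → Wd A
  | (Sum.inl a, e) => [(a, e)]
  | (Sum.inr X, e) => if e then t X else iw (t X)

variable {m}

theorem evs_em (u : La Ω m → Wd A) (s : (A ⊕ Ω) × Bool) :
    evs (fun z => emb (u z)) (em m s) = emb (sv (fun X => u (Sum.inl X)) s) := by
  obtain ⟨s, e⟩ := s
  rcases s with a | X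
  · rfl
  · cases e
    · show iw (emb (u (Sum.inl X))) = emb (iw (u (Sum.inl X)))
      exact emb_iw _
    · rfl

theorem evs_vt (u : La Ω m → Wd A) (k : Fin 4) (n : ℕ) :
    evs (fun z => emb (u z)) (vr m k n true) = emb (u (Sum.inr (k, ix m n))) := rfl

theorem evs_vf (u : La Ω m → Wd A) (k : Fin 4) (n : ℕ) :
    evs (fun z => emb (u z)) (vr m k n false) = emb (iw (u (Sum.inr (k, ix m n)))) := emb_iw _

theorem evs_hs (v : La Ω m → Wd (Option A)) : evs v (hs m) = [(none, true)] := rfl

/-- the values of the auxiliary variables from index `n` -/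
def fu (u : La Ω m → Wd A) (n : ℕ) : ℕ → Fin 4 → Wd A := fun i k => u (Sum.inr (k, ix m (n + i)))

theorem fu_succ (u : La Ω m → Wd A) (n : ℕ) : (fun i => fu u n (i + 1)) = fu u (n + 1) := by
  funext i k
  show u (Sum.inr (k, ix m (n + (i + 1)))) = u (Sum.inr (k, ix m (n + 1 + i)))
  rw [Nat.add_right_comm n 1 i]; rfl

theorem sem (u : La Ω m → Wd A) (W : List ((A ⊕ Ω) × Bool)) (n : ℕ) :
    ev (fun z => emb (u z)) (TT m n W) = ev (fun z => emb (u z)) (FF m n W) ↔
      ER (sv (fun X => u (Sum.inl X))) (fu u n) W := by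
  induction W generalizing n with
  | nil =>
    have h := emb_split (fu u n 0 0 ++ (fu u n 0 1 ++ (fu u n 0 2 ++ fu u n 0 3))) [] [] []
    simp only [TT, FF, ev_cons, ev_nil, evs_vt, evs_hs, ER]
    simp only [emb_append, fu, add_zero, emb_nil, List.append_assoc, List.nil_append,
      List.append_nil, and_true, List.append_eq_nil_iff] at h ⊢
    exact h
  | cons s W ih =>
    simp only [TT, FF, ev_cons, evs_vt, evs_vf, evs_hs, evs_em, ER]
    rw [fu_succ, ← ih (n + 1)]
    simp only [List.singleton_append, ← List.append_assoc, ← emb_append]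
    simp only [List.append_assoc, List.cons_append, List.nil_append]
    rw [emb_split, emb_split, emb_split]
    rfl

theorem solves_S0 (u : La Ω m → Wd A) (W : List ((A ⊕ Ω) × Bool)) :
    Solves (fun z => emb (u z)) (S0 m W) ↔ fu u 0 0 0 = [] ∧
      ER (sv (fun X => u (Sum.inl X))) (fu u 0) W := by
  rw [← sem]
  simp only [Solves, S0, if_true, ev_cons, evs_hs, evs_vt, Bool.false_eq_true, if_false]
  have := emb_split [] (fu u 0 0 0) (ev (fun z => emb (u z)) (TT m 0 W))
    (ev (fun z => emb (u z)) (FF m 0 W))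
  simp only [emb_nil, List.nil_append, List.singleton_append] at this ⊢
  rw [← eq_comm (a := []) (b := fu u 0 0 0)]
  exact this

/-! ### occurrences -/

theorem ix_eq {n : ℕ} (hn : n ≤ m) (j : Fin (m + 1)) : ix m n = j ↔ n = j.val := by
  constructor
  · rintro rfl
    simp [ix, Fin.ofNat, Nat.mod_eq_of_lt (Nat.lt_succ_of_le hn)]
  · intro h
    apply Fin.ext
    simp [ix, Fin.ofNat, h]
    omega

theorem vr_eq {n : ℕ} (hn : n ≤ m) (k k' : Fin 4) (e e' : Bool) (j : Fin (m + 1)) :
    (vr m k n e : Sy (Option A) (La Ω m)) = Sum.inr (Sum.inr (k', j), e') ↔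
      k = k' ∧ n = j.val ∧ e = e' := by
  rw [← ix_eq hn]
  simp [vr, and_assoc]

theorem vr_ne (k : Fin 4) (n : ℕ) (e e' : Bool) (X : Ω) :
    (vr m k n e : Sy (Option A) (La Ω m)) ≠ Sum.inr (Sum.inl X, e') := by
  simp [vr]

theorem hs_ne (l : La Ω m × Bool) : (hs m : Sy (Option A) (La Ω m)) ≠ Sum.inr l := by
  simp [hs]

theorem em_ne (s : (A ⊕ Ω) × Bool) (k : Fin 4) (j : Fin (m + 1)) (e : Bool) :
    (em m s : Sy (Option A) (La Ω m)) ≠ Sum.inr (Sum.inr (k, j), e) := by
  obtain ⟨s, e'⟩ := s
  rcases s with a | X <;> simp [em]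

theorem em_eq (s : (A ⊕ Ω) × Bool) (X : Ω) (e : Bool) :
    (em m s : Sy (Option A) (La Ω m)) = Sum.inr (Sum.inl X, e) ↔ s = (Sum.inr X, e) := by
  obtain ⟨s, e'⟩ := s
  rcases s with a | X' <;> simp [em]

/-- number of occurrences of `X` (`e = true`) or `X⁻¹` (`e = false`) in `W` -/
def nocc (W : List ((A ⊕ Ω) × Bool)) (X : Ω) (e : Bool) : ℕ :=
  W.countP (fun s => decide (s = (Sum.inr X, e)))

theorem occ_X (W : List ((A ⊕ Ω) × Bool)) (n : ℕ) (X : Ω) (e e' : Bool) :
    occ (Sum.inr (Sum.inl X, e)) (TT m n W) = nocc W X e ∧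
      occ (Sum.inr (Sum.inl X, e')) (FF m n W) = 0 := by
  induction W generalizing n with
  | nil => simp [TT, FF, occ_cons, vr_ne, hs_ne, nocc]
  | cons s W ih =>
    obtain ⟨h1, h2⟩ := ih (n + 1)
    constructor
    · simp only [TT, occ_cons, vr_ne, hs_ne, if_false, add_zero, em_eq, h1, nocc,
        List.countP_cons, decide_eq_true_eq]
    · simp only [FF, occ_cons, vr_ne, hs_ne, if_false, add_zero, h2]

theorem occ_K (W : List ((A ⊕ Ω) × Bool)) (n : ℕ) (hn : n + W.length ≤ m) (k : Fin 4)
    (j : Fin (m + 1)) (e : Bool) :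
    occ (Sum.inr (Sum.inr (k, j), e)) (TT m n W) +
      occ (Sum.inr (Sum.inr (k, j), !e)) (FF m n W) ≤
      if j.val < n then 0 else if k = 0 ∧ e = false ∧ j.val = n then 0 else 1 := by
  induction W generalizing n with
  | nil =>
    simp only [List.length_nil, add_zero] at hn
    simp only [TT, FF, occ_cons, vr_eq hn, hs_ne, if_false, occ_nil, add_zero, zero_add]
    by_cases h1 : n = j.val
    · subst h1
      fin_cases k <;> cases e <;> simp
    · simp [h1]
  | cons s W ih =>
    simp only [List.length_cons] at hn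
    have ih := ih (n + 1) (by omega)
    have hn0 : n ≤ m := by omega
    have hn1 : n + 1 ≤ m := by omega
    simp only [TT, FF, occ_cons, vr_eq hn0, vr_eq hn1, hs_ne, em_ne, if_false, add_zero]
    by_cases h1 : n = j.val
    · subst h1
      rw [if_pos (by omega)] at ih
      fin_cases k <;> cases e <;> simp at ih ⊢ <;> omega
    · by_cases h2 : n + 1 = j.val
      · have hj2 : ¬ j.val < n := by omega
        have hj3 : ¬ j.val = n := by omega
        rw [if_neg (by omega)] at ih
        rw [if_neg (by omega), if_neg (by omega)]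
        fin_cases k <;> cases e <;> simp [h1, h2, hj2, hj3] at ih ⊢ <;> omega
      · have h3 : ∀ k' : Fin 4, ¬ (k' = k ∧ n = j.val ∧ (true = e)) := fun _ h => h1 h.2.1
        simp only [h1, h2, false_and, and_false, if_false, add_zero]
        refine ih.trans ?_
        split_ifs <;> omega

theorem k1_S0 (W : List ((A ⊕ Ω) × Bool)) (hW : W.length ≤ m)
    (hq : ∀ X e, nocc W X e ≤ 1) : K1 (S0 m W) := by
  have key : ∀ l : La Ω m × Bool, oc (S0 m W) true l + oc (S0 m W) false (fl l) ≤ 1 := by
    rintro ⟨z, e⟩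
    rcases z with X | ⟨k, j⟩
    · have h1 := occ_X (m := m) W 0 X e (!e)
      show occ _ (hs m :: TT m 0 W) + occ _ (vr m 0 0 true :: hs m :: FF m 0 W) ≤ 1
      simp only [fl, occ_cons, hs_ne, vr_ne, if_false, add_zero]
      rw [h1.1, h1.2]
      exact hq X e
    · have h1 := occ_K (m := m) W 0 (by omega) k j e
      show occ _ (hs m :: TT m 0 W) + occ _ (vr m 0 0 true :: hs m :: FF m 0 W) ≤ 1
      simp only [fl, occ_cons, hs_ne, vr_eq (Nat.zero_le m), if_false, add_zero]
      rw [if_neg (Nat.not_lt_zero _)] at h1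
      by_cases h2 : 0 = k ∧ 0 = j.val ∧ true = !e
      · rw [if_pos h2]
        rw [if_pos ⟨h2.1.symm, by simpa using h2.2.2, h2.2.1.symm⟩] at h1
        omega
      · rw [if_neg h2]
        refine le_trans (by omega) (h1.trans ?_)
        split_ifs <;> omega
  intro l b
  cases b
  · have := key (fl l)
    rw [fl_fl] at this
    show oc (S0 m W) false l + oc (S0 m W) true (fl l) ≤ 1
    omega
  · exact key l

theorem cnt_of_K1 {B Λ : Type} [DecidableEq B] [DecidableEq Λ] {S : Sys B Λ} (h : K1 S) (z : Λ × Bool) :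
    cnt S z ≤ 2 := by
  have h1 := h z true
  have h2 := h z false
  simp only [Bool.not_true, Bool.not_false] at h1 h2
  unfold cnt
  omega

end Pool.Agent.H860V
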